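import Pool.Agent.R239.Besi.Seq

/-!
The rotation vector and its diophantine properties.
-/

open Set Topology Filter

namespace Pool.Agent.R239.Besi

/-- The error scale. -/
noncomputable def eps (k : ℕ) : ℝ := 32 ^ (k + 1) / P (k + 1)

lemma eps_pos (k : ℕ) : 0 < eps k := div_pos (by positivity) (P_pos _)

lemma eps_succ_le (k : ℕ) : eps (k + 1) ≤ eps k / 8 := by
  unfold eps
  rw [P_succ (by omega : 1 ≤ k + 1), div_div, div_le_div_iff₀ (mul_pos (P_pos _) (N_posR _))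
    (mul_pos (P_pos _) (by norm_num)), pow_succ (32 : ℝ) (k + 1)]
  have h1 := N_geR (k + 1)
  have h2 := P_pos (k + 1)
  have h3 : (0 : ℝ) < 32 ^ (k + 1) := by positivity
  have h4 : 0 < (32 : ℝ) ^ (k + 1) * P (k + 1) := mul_pos h3 h2
  nlinarith

lemma eps_add_le (k m : ℕ) : eps (k + m) ≤ eps k * (1 / 8) ^ m := by
  induction m with
  | zero => simp
  | succ m ih =>
    have := eps_succ_le (k + m)
    rw [← add_assoc, pow_succ]
    linarith

lemma eps_le_pow (k : ℕ) : eps k ≤ 32 * (1 / 8) ^ k := by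
  have h := eps_add_le 0 k
  rw [zero_add] at h
  have h0 : eps 0 = 32 := by
    unfold eps
    rw [zero_add, P_one]; norm_num
  rw [h0] at h
  exact h

lemma tendsto_eps : Tendsto eps atTop (𝓝 0) := by
  have h : Tendsto (fun k : ℕ => 32 * (1 / 8 : ℝ) ^ k) atTop (𝓝 (32 * 0)) :=
    (tendsto_pow_atTop_nhds_zero_of_lt_one (by norm_num) (by norm_num)).const_mul _
  rw [mul_zero] at h
  exact squeeze_zero (fun k => (eps_pos k).le) eps_le_pow h

/-- Approximations. -/
noncomputable def al1 (k : ℕ) : ℝ := A k / Q k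
noncomputable def al2 (k : ℕ) : ℝ := B k / Q k

lemma al_step {k : ℕ} (hk : 1 ≤ k) :
    |al1 (k + 1) - al1 k| + |al2 (k + 1) - al2 k| ≤ 2 * eps k / Q k := by
  have hQ := Q_pos hk
  have hQ1 := Q_pos (k := k + 1) (by omega)
  have e1 : al1 (k + 1) - al1 k = sb (k + 1) / (Q k * Q (k + 1)) := by
    have h := A_diff k
    have h2 : (Q k : ℝ) * A (k + 1) - Q (k + 1) * A k = sb (k + 1) := by exact_mod_cast h
    unfold al1
    rw [← h2]
    field_simp
  have e2 : al2 (k + 1) - al2 k = -sa (k + 1) / (Q k * Q (k + 1)) := by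
    have h := B_diff k
    have h2 : (Q k : ℝ) * B (k + 1) - Q (k + 1) * B k = -sa (k + 1) := by exact_mod_cast h
    unfold al2
    rw [← h2]
    field_simp
  rw [e1, e2, abs_div, abs_div, abs_neg, abs_of_pos (mul_pos hQ hQ1), ← add_div]
  have h1 := sa_bound (k + 1)
  have h2 := sb_bound (k + 1)
  have h3 := Q_lower (k := k + 1) (by omega)
  have hP := P_pos (k + 1)
  rw [div_le_div_iff₀ (mul_pos hQ hQ1) hQ]
  unfold eps
  have h4 : P (k + 1) * (2 * 2 ^ (k + 1)) ≤ 2 * (32 ^ (k + 1) / P (k + 1)) * Q (k + 1) := by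
    calc P (k + 1) * (2 * 2 ^ (k + 1))
        = 2 * (32 ^ (k + 1) / P (k + 1)) * (P (k + 1) ^ 2 / 16 ^ (k + 1)) := by
          rw [show (32 : ℝ) = 2 * 16 by norm_num, mul_pow]
          field_simp
      _ ≤ _ := by gcongr
  have h5 : |(sb (k + 1) : ℝ)| + |(sa (k + 1) : ℝ)| ≤ P (k + 1) * (2 * 2 ^ (k + 1)) := by linarith
  have h6 := mul_le_mul_of_nonneg_right (h5.trans h4) hQ.le
  linarith

lemma al_diff {k : ℕ} (hk : 1 ≤ k) (m : ℕ) :
    |al1 (k + m) - al1 k| + |al2 (k + m) - al2 k| ≤ 2 * eps k / Q k * (2 - 2 * (1 / 2) ^ m) := by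
  induction m with
  | zero => simp
  | succ m ih =>
    have h1 := al_step (k := k + m) (by omega)
    have h2 : 2 * eps (k + m) / Q (k + m) ≤ 2 * eps k / Q k * (1 / 2) ^ m := by
      have hQ := Q_pos hk
      have hQ1 := Q_pos (k := k + m) (by omega)
      have hQ2 := Q_mono (j := k) (k := k + m) (by omega)
      have h3 := eps_add_le k m
      have h4 : ((1 : ℝ) / 8) ^ m ≤ (1 / 2) ^ m := pow_le_pow_left₀ (by norm_num) (by norm_num) m
      have h5 : eps (k + m) ≤ eps k * (1 / 2) ^ m :=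
        h3.trans (mul_le_mul_of_nonneg_left h4 (eps_pos k).le)
      calc 2 * eps (k + m) / Q (k + m) ≤ 2 * eps (k + m) / Q k := by
            apply div_le_div_of_nonneg_left _ hQ hQ2
            linarith [eps_pos (k + m)]
        _ ≤ 2 * (eps k * (1 / 2) ^ m) / Q k := by gcongr
        _ = _ := by ring
    have h6 : |al1 (k + (m + 1)) - al1 k| ≤ |al1 (k + m + 1) - al1 (k + m)| + |al1 (k + m) - al1 k| :=
      abs_sub_le _ _ _
    have h7 : |al2 (k + (m + 1)) - al2 k| ≤ |al2 (k + m + 1) - al2 (k + m)| + |al2 (k + m) - al2 k| :=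
      abs_sub_le _ _ _
    have h8 : 2 * eps k / Q k * (2 - 2 * (1 / 2) ^ m) + 2 * eps k / Q k * (1 / 2) ^ m =
        2 * eps k / Q k * (2 - 2 * (1 / 2) ^ (m + 1)) := by
      rw [pow_succ]; ring
    linarith

lemma al_diff' {k n : ℕ} (hk : 1 ≤ k) (hn : k ≤ n) :
    |al1 n - al1 k| + |al2 n - al2 k| ≤ 4 * eps k / Q k := by
  obtain ⟨m, rfl⟩ := Nat.exists_eq_add_of_le hn
  refine (al_diff hk m).trans ?_
  have h1 : 0 < 2 * eps k / Q k := div_pos (by linarith [eps_pos k]) (Q_pos hk)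
  have h2 : (0 : ℝ) < (1 / 2) ^ m := by positivity
  have h3 : 4 * eps k / Q k = 2 * eps k / Q k * 2 := by ring
  rw [h3]
  apply mul_le_mul_of_nonneg_left _ h1.le
  linarith

lemma one_le_Q {k : ℕ} (hk : 1 ≤ k) : (1 : ℝ) ≤ Q k := by
  have := Q_mono hk
  rw [Q_one] at this
  simpa using this

theorem exists_alpha : ∃ a b : ℝ, ∀ k : ℕ, 1 ≤ k →
    |Q k * a - A k| + |Q k * b - B k| ≤ 4 * eps k := by
  have hb : Tendsto (fun n : ℕ => 4 * eps (n + 1)) atTop (𝓝 0) := by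
    have := (tendsto_eps.comp (tendsto_add_atTop_nat 1)).const_mul 4
    rw [mul_zero] at this
    exact this
  have key : ∀ n m : ℕ, n ≤ m → |al1 (m + 1) - al1 (n + 1)| + |al2 (m + 1) - al2 (n + 1)| ≤
      4 * eps (n + 1) := by
    intro n m hnm
    refine (al_diff' (k := n + 1) (n := m + 1) (by omega) (by omega)).trans ?_
    apply div_le_self (by linarith [eps_pos (n + 1)])
    exact one_le_Q (by omega)
  have c1 : CauchySeq fun n => al1 (n + 1) := by
    refine cauchySeq_of_le_tendsto_0' _ (fun n m hnm => ?_) hb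
    rw [dist_comm, Real.dist_eq]
    linarith [key n m hnm, abs_nonneg (al2 (m + 1) - al2 (n + 1))]
  have c2 : CauchySeq fun n => al2 (n + 1) := by
    refine cauchySeq_of_le_tendsto_0' _ (fun n m hnm => ?_) hb
    rw [dist_comm, Real.dist_eq]
    linarith [key n m hnm, abs_nonneg (al1 (m + 1) - al1 (n + 1))]
  obtain ⟨a, ha⟩ := cauchySeq_tendsto_of_complete c1
  obtain ⟨b, hb'⟩ := cauchySeq_tendsto_of_complete c2
  refine ⟨a, b, fun k hk => ?_⟩
  have hQ := Q_pos hk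
  have hlim : Tendsto (fun n => |al1 (n + 1) - al1 k| + |al2 (n + 1) - al2 k|) atTop
      (𝓝 (|a - al1 k| + |b - al2 k|)) :=
    (ha.sub_const _).abs.add (hb'.sub_const _).abs
  have h1 : |a - al1 k| + |b - al2 k| ≤ 4 * eps k / Q k := by
    apply le_of_tendsto hlim
    filter_upwards [eventually_ge_atTop k] with n hn
    exact al_diff' hk (by omega)
  have e1 : (Q k : ℝ) * a - A k = Q k * (a - al1 k) := by
    unfold al1; field_simp
  have e2 : (Q k : ℝ) * b - B k = Q k * (b - al2 k) := by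
    unfold al2; field_simp
  rw [e1, e2, abs_mul, abs_mul, abs_of_pos hQ, ← mul_add]
  rw [le_div_iff₀ hQ] at h1
  linarith

/-- The first coordinate of the rotation vector. -/
noncomputable def av : ℝ := exists_alpha.choose
/-- The second coordinate of the rotation vector. -/
noncomputable def bv : ℝ := exists_alpha.choose_spec.choose

/-- `delta_k`. -/
noncomputable def d1 (k : ℕ) : ℝ := Q k * av - A k
noncomputable def d2 (k : ℕ) : ℝ := Q k * bv - B k

lemma delta_bound {k : ℕ} (hk : 1 ≤ k) : |d1 k| + |d2 k| ≤ 4 * eps k :=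
  exists_alpha.choose_spec.choose_spec k hk

/-- The small divisors. -/
noncomputable def xi (k : ℕ) : ℝ := sa k * av + sb k * bv + sp k

/-- The second family of frequencies. -/
def la (k : ℕ) : ℤ := N k * sa k - sa (k + 1)
def lb (k : ℕ) : ℤ := N k * sb k - sb (k + 1)
def lp (k : ℕ) : ℤ := N k * sp k - sp (k + 1)

noncomputable def eta (k : ℕ) : ℝ := la k * av + lb k * bv + lp k

lemma eta_eq (k : ℕ) : eta k = N k * xi k - xi (k + 1) := by
  simp only [eta, xi, la, lb, lp]; push_cast; ring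

lemma s_delta (k : ℕ) : sa k * d1 k + sb k * d2 k = Q k * xi k := by
  have h : (sa k : ℝ) * A k + sb k * B k + sp k * Q k = 0 := by exact_mod_cast orth k
  simp only [d1, d2, xi]
  linear_combination -h

lemma l_delta (k : ℕ) : la k * d1 k + lb k * d2 k = Q k * eta k := by
  have h : (sa k : ℝ) * A k + sb k * B k + sp k * Q k = 0 := by exact_mod_cast orth k
  have h' : (sa (k + 1) : ℝ) * A k + sb (k + 1) * B k + sp (k + 1) * Q k = 0 := by
    exact_mod_cast orth' k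
  simp only [d1, d2, eta, la, lb, lp]
  push_cast
  linear_combination -(N k : ℝ) * h + h'

lemma det_ls (k : ℕ) : la k * sb k - lb k * sa k = Q k := by
  simp only [la, lb, Q]; ring

lemma key1 (k : ℕ) : 8192 * 64 ^ k ≤ (N k : ℝ) * N (k + 1) := by
  rw [N_eqR, N_eqR, ← pow_add]
  calc (8192 : ℝ) * 64 ^ k ≤ 4 ^ 7 * 64 ^ k := by
        have : (0 : ℝ) < 64 ^ k := by positivity
        nlinarith
    _ = 4 ^ (7 + 3 * k) := by
        rw [pow_add, pow_mul]; norm_num
    _ ≤ 4 ^ ((k + 2) ^ 2 + (k + 1 + 2) ^ 2) := by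
        apply pow_le_pow_right₀ (by norm_num)
        nlinarith

lemma xi_mul_bound {k : ℕ} (hk : 1 ≤ k) : |xi k * Q (k + 1) - 1| ≤ 1 / 2 := by
  have h : (sa k : ℝ) * A (k + 1) + sb k * B (k + 1) + sp k * Q (k + 1) = 1 := by
    exact_mod_cast det_one' k
  have e : xi k * Q (k + 1) - 1 = sa k * d1 (k + 1) + sb k * d2 (k + 1) := by
    simp only [xi, d1, d2]
    linear_combination h
  rw [e]
  have h1 := sa_bound k
  have h2 := sb_bound k
  have h3 := delta_bound (k := k + 1) (by omega)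
  have hP := P_pos k
  have hN := N_posR k
  have hN1 := N_posR (k + 1)
  have h4 : (0 : ℝ) < 2 ^ k * P k := by positivity
  calc |sa k * d1 (k + 1) + sb k * d2 (k + 1)|
      ≤ |(sa k : ℝ)| * |d1 (k + 1)| + |(sb k : ℝ)| * |d2 (k + 1)| := by
        rw [← abs_mul, ← abs_mul]; exact abs_add_le _ _
    _ ≤ 2 ^ k * P k * |d1 (k + 1)| + 2 ^ k * P k * |d2 (k + 1)| := by gcongr
    _ = 2 ^ k * P k * (|d1 (k + 1)| + |d2 (k + 1)|) := by ring
    _ ≤ 2 ^ k * P k * (4 * eps (k + 1)) := by gcongr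
    _ = 4096 * 64 ^ k / (N k * N (k + 1)) := by
        unfold eps
        rw [show k + 1 + 1 = (k + 1) + 1 from rfl, P_succ (by omega : 1 ≤ k + 1), P_succ hk,
          show (64 : ℝ) = 2 * 32 by norm_num, mul_pow]
        field_simp
        ring
    _ ≤ 1 / 2 := by
        rw [div_le_div_iff₀ (by positivity) (by norm_num)]
        have := key1 k
        linarith

lemma xi_lower {k : ℕ} (hk : 1 ≤ k) : 1 / (2 * Q (k + 1)) ≤ xi k := by
  have hQ := Q_pos (k := k + 1) (by omega)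
  have h := (abs_le.mp (xi_mul_bound hk)).1
  rw [div_le_iff₀ (by positivity)]
  linarith

lemma xi_upper {k : ℕ} (hk : 1 ≤ k) : xi k ≤ 2 / Q (k + 1) := by
  have hQ := Q_pos (k := k + 1) (by omega)
  have h := (abs_le.mp (xi_mul_bound hk)).2
  rw [le_div_iff₀ hQ]
  linarith

lemma xi_pos {k : ℕ} (hk : 1 ≤ k) : 0 < xi k :=
  lt_of_lt_of_le (by have := Q_pos (k := k + 1) (by omega); positivity) (xi_lower hk)

lemma xi_succ_le {k : ℕ} (hk : 1 ≤ k) : xi (k + 1) ≤ xi k := by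
  have hQ := Q_pos (k := k + 1) (by omega)
  have hQ2 := Q_pos (k := k + 2) (by omega)
  have h1 := xi_upper (k := k + 1) (by omega)
  have h2 := xi_lower hk
  have h3 := Q_succ_ge (k := k + 1) (by omega)
  have h4 := N_geR (k + 1)
  refine h1.trans (le_trans ?_ h2)
  rw [show k + 1 + 1 = k + 2 from rfl] at *
  rw [div_le_div_iff₀ hQ2 (by positivity)]
  have h5 : (64 : ℝ) ≤ (N (k + 1) : ℝ) ^ 2 := by nlinarith
  have h6 := mul_le_mul_of_nonneg_right h5 hQ.le
  linarith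

lemma xi_ratio {k : ℕ} (hk : 1 ≤ k) : xi k ≤ (N (k + 1) : ℝ) ^ 2 / 2 * xi (k + 1) := by
  have hQ := Q_pos (k := k + 1) (by omega)
  have hQ2 := Q_pos (k := k + 2) (by omega)
  have h1 := xi_upper hk
  have h2 := xi_lower (k := k + 1) (by omega)
  rw [show k + 1 + 1 = k + 2 from rfl] at *
  have h3 : (Q (k + 2) : ℝ) ≤ _ := Q_succ_le (k := k + 1) (by omega)
  have hN := N_posR (k + 1)
  refine h1.trans (le_trans ?_ (mul_le_mul_of_nonneg_left h2 (by positivity)))
  rw [mul_one_div, div_le_div_iff₀ hQ (by positivity)]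
  linarith

lemma eta_nonneg {k : ℕ} (hk : 1 ≤ k) : 0 < eta k := by
  rw [eta_eq]
  have h1 := xi_succ_le hk
  have h2 := N_geR k
  have h3 := xi_pos hk
  nlinarith

lemma eta_le {k : ℕ} (hk : 1 ≤ k) : eta k ≤ N k * xi k := by
  rw [eta_eq]
  have h3 := xi_pos (k := k + 1) (by omega)
  linarith

lemma l_bound_aux (u0 u1 u2 : ℤ) (k : ℕ) (h0 : |(u0 : ℝ)| ≤ 1) (h1 : |(u1 : ℝ)| ≤ 2)
    (h2 : |(u2 : ℝ)| ≤ 4) :
    |((N (k + 2) * rec3 u0 u1 u2 (k + 2) - rec3 u0 u1 u2 (k + 3) : ℤ) : ℝ)| ≤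
      2 ^ (k + 2) * N (k + 1) * P (k + 2) := by
  obtain ⟨i0, i1, i2⟩ := s_bound_aux u0 u1 u2 k h0 h1 h2
  have hrec : rec3 u0 u1 u2 (k + 3) = N (k + 2) * rec3 u0 u1 u2 (k + 2)
      - yy (k + 1) * rec3 u0 u1 u2 (k + 1) + rec3 u0 u1 u2 k := rfl
  rw [hrec]
  have e : ((N (k + 2) * rec3 u0 u1 u2 (k + 2) - (N (k + 2) * rec3 u0 u1 u2 (k + 2)
      - yy (k + 1) * rec3 u0 u1 u2 (k + 1) + rec3 u0 u1 u2 k) : ℤ) : ℝ) =
      (N (k + 1) : ℝ) ^ 2 / 8 * rec3 u0 u1 u2 (k + 1) - rec3 u0 u1 u2 k := by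
    push_cast
    rw [yyR]
    ring
  rw [e]
  have e2 : P (k + 2) = P (k + 1) * N (k + 1) := P_succ (by omega)
  have hN1 := N_geR (k + 1)
  have hP0 := P_pos k
  have hP1 := P_pos (k + 1)
  have hPk : P k ≤ P (k + 2) := P_mono (by omega)
  have h2k : (0 : ℝ) < 2 ^ k := by positivity
  have b2 : |(N (k + 1) : ℝ) ^ 2 / 8 * rec3 u0 u1 u2 (k + 1)| ≤ 2 ^ k * (N (k + 1) * P (k + 2)) := by
    rw [abs_mul, abs_of_pos (by positivity : (0 : ℝ) < (N (k + 1) : ℝ) ^ 2 / 8), e2]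
    have h5 : (N (k + 1) : ℝ) ^ 2 / 8 * |(rec3 u0 u1 u2 (k + 1) : ℝ)| ≤
        (N (k + 1) : ℝ) ^ 2 / 8 * (2 ^ (k + 1) * P (k + 1)) :=
      mul_le_mul_of_nonneg_left i1 (by positivity)
    refine h5.trans ?_
    rw [pow_succ (2 : ℝ) k]
    have h7 : 0 < (N (k + 1) : ℝ) ^ 2 * (2 ^ k * P (k + 1)) := by positivity
    nlinarith
  have b3 : |(rec3 u0 u1 u2 k : ℝ)| ≤ 2 ^ k * (N (k + 1) * P (k + 2)) := by
    refine i0.trans (mul_le_mul_of_nonneg_left ?_ h2k.le)
    nlinarith [P_pos (k + 2)]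
  calc |(N (k + 1) : ℝ) ^ 2 / 8 * rec3 u0 u1 u2 (k + 1) - rec3 u0 u1 u2 k|
      ≤ |(N (k + 1) : ℝ) ^ 2 / 8 * rec3 u0 u1 u2 (k + 1)| + |(rec3 u0 u1 u2 k : ℝ)| := abs_sub _ _
    _ ≤ 2 ^ k * (N (k + 1) * P (k + 2)) + 2 ^ k * (N (k + 1) * P (k + 2)) := by linarith
    _ ≤ 2 ^ (k + 2) * N (k + 1) * P (k + 2) := by
        rw [pow_add]
        have : 0 < 2 ^ k * ((N (k + 1) : ℝ) * P (k + 2)) := by
          have := P_pos (k + 2)
          positivity
        nlinarith

lemma la_bound (k : ℕ) : |(la (k + 2) : ℝ)| ≤ 2 ^ (k + 2) * N (k + 1) * P (k + 2) :=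
  l_bound_aux 0 1 0 k (by norm_num) (by norm_num) (by norm_num)

lemma lb_bound (k : ℕ) : |(lb (k + 2) : ℝ)| ≤ 2 ^ (k + 2) * N (k + 1) * P (k + 2) :=
  l_bound_aux 0 0 1 k (by norm_num) (by norm_num) (by norm_num)

/-- Integer relations are trivial. -/
lemma indep_int (a b c : ℤ) (h : a * av + b * bv + c = 0) : a = 0 ∧ b = 0 ∧ c = 0 := by
  set t : ℕ → ℤ := fun k => a * A k + b * B k + c * Q k with ht
  have hreal : ∀ k, (t k : ℝ) = -(a * d1 k + b * d2 k) := by
    intro k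
    simp only [ht, d1, d2]
    push_cast
    linear_combination (Q k : ℝ) * h
  have hlim : Tendsto (fun k => (|(a : ℝ)| + |(b : ℝ)|) * (4 * eps k)) atTop (𝓝 0) := by
    have := (tendsto_eps.const_mul 4).const_mul (|(a : ℝ)| + |(b : ℝ)|)
    simpa using this
  obtain ⟨K, hK⟩ := eventually_atTop.mp (hlim.eventually (gt_mem_nhds (show (0 : ℝ) < 1 by norm_num)))
  have hzero : ∀ k, max K 1 ≤ k → t k = 0 := by
    intro k hk
    have h1 := hK k (le_trans (le_max_left _ _) hk)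
    have h2 := delta_bound (k := k) (le_trans (le_max_right _ _) hk)
    have h3 : |(t k : ℝ)| < 1 := by
      rw [hreal, abs_neg]
      calc |a * d1 k + b * d2 k| ≤ |(a : ℝ)| * |d1 k| + |(b : ℝ)| * |d2 k| := by
            rw [← abs_mul, ← abs_mul]; exact abs_add_le _ _
        _ ≤ (|(a : ℝ)| + |(b : ℝ)|) * (|d1 k| + |d2 k|) := by
            nlinarith [abs_nonneg (a : ℝ), abs_nonneg (b : ℝ), abs_nonneg (d1 k), abs_nonneg (d2 k),
              mul_nonneg (abs_nonneg (a : ℝ)) (abs_nonneg (d2 k)),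
              mul_nonneg (abs_nonneg (b : ℝ)) (abs_nonneg (d1 k))]
        _ ≤ (|(a : ℝ)| + |(b : ℝ)|) * (4 * eps k) := by gcongr
        _ < 1 := h1
    have h4 : |t k| < 1 := by exact_mod_cast h3
    exact Int.abs_lt_one_iff.mp h4
  have hback : ∀ m k, max K 1 ≤ k + m → t k = 0 ∧ t (k + 1) = 0 ∧ t (k + 2) = 0 := by
    intro m
    induction m with
    | zero =>
      intro k hk
      exact ⟨hzero k (by omega), hzero (k + 1) (by omega), hzero (k + 2) (by omega)⟩
    | succ m ih =>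
      intro k hk
      obtain ⟨i1, i2, i3⟩ := ih (k + 1) (by omega)
      refine ⟨?_, i1, i2⟩
      have hrec : t (k + 3) = yy (k + 2) * t (k + 2) - N (k + 2) * t (k + 1) + t k := by
        simp only [ht]
        rw [A_rec, B_rec, Q_rec]
        ring
      have i3' : t (k + 3) = 0 := i3
      have i2' : t (k + 2) = 0 := i2
      rw [i3', i2', i1] at hrec
      linarith
  obtain ⟨t0, t1, t2⟩ := hback (max K 1) 0 (by omega)
  have e0 : t 0 = b := by
    simp [ht, A, B, Q, sa, sb, sp, rec3]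
  have e1 : t 1 = c := by
    simp [ht, A, B, Q, sa, sb, sp, rec3]
  have hb : b = 0 := by rw [← e0]; exact t0
  have hc : c = 0 := by rw [← e1]; exact t1
  have e2 : t 2 = a := by
    simp [ht, A, B, Q, sa, sb, sp, rec3, hb, hc]
  have ha : a = 0 := by rw [← e2]; exact t2
  exact ⟨ha, hb, hc⟩

lemma irrational_av : Irrational av := by
  rintro ⟨q, hq⟩
  have h := indep_int q.den 0 (-q.num) (by
    push_cast
    rw [← hq, Rat.cast_def]
    have : (q.den : ℝ) ≠ 0 := by exact_mod_cast q.den_ne_zero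
    field_simp
    ring)
  have := q.den_ne_zero
  omega

lemma indep_rat (r s : ℚ) : bv ≠ r * av + s := by
  intro hbv
  have h := indep_int (-(r.num * s.den)) (r.den * s.den) (-(s.num * r.den)) (by
    push_cast
    rw [hbv, Rat.cast_def r, Rat.cast_def s]
    have h1 : (r.den : ℝ) ≠ 0 := by exact_mod_cast r.den_ne_zero
    have h2 : (s.den : ℝ) ≠ 0 := by exact_mod_cast s.den_ne_zero
    field_simp
    ring)
  have h1 := r.den_ne_zero
  have h2 := s.den_ne_zero
  have h3 : (r.den : ℤ) * s.den ≠ 0 := by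
    apply mul_ne_zero
    · exact_mod_cast h1
    · exact_mod_cast h2
  exact h3 h.2.1

end Pool.Agent.R239.Besi
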