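import Mathlib

/-!
The doubly periodic bump function.
-/

open Set Topology Filter Real

namespace Pool.Agent.R239.Besi

/-- The denominator of the bump function. -/
noncomputable def den (n u v : ℝ) : ℝ := 1 + n ^ 2 * (sin (π * u) ^ 2 + sin (π * v) ^ 2)

/-- The bump function: `0` at the lattice points, close to `1` away from them. -/
noncomputable def g (n u v : ℝ) : ℝ := 1 - (den n u v)⁻¹

lemma one_le_den (n u v : ℝ) : 1 ≤ den n u v := by unfold den; nlinarith [sq_nonneg n, mul_nonneg (sq_nonneg n) (sq_nonneg (sin (π * u))), mul_nonneg (sq_nonneg n) (sq_nonneg (sin (π * v)))]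

lemma den_pos (n u v : ℝ) : 0 < den n u v := by linarith [one_le_den n u v]

lemma g_nonneg (n u v : ℝ) : 0 ≤ g n u v := by
  unfold g
  have := inv_le_one_of_one_le₀ (one_le_den n u v)
  linarith

lemma g_le_one (n u v : ℝ) : g n u v ≤ 1 := by
  unfold g
  have := inv_pos.mpr (den_pos n u v)
  linarith

lemma sin_sq_add_int (u : ℝ) (m : ℤ) : sin (π * (u + m)) ^ 2 = sin (π * u) ^ 2 := by
  have h : π * (u + m) = π * u + m * π := by ring
  rw [h, Real.sin_add_int_mul_pi, mul_pow]
  have : ((-1 : ℝ) ^ m) ^ 2 = 1 := by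
    rw [← zpow_natCast, ← zpow_mul, mul_comm, zpow_mul]
    norm_num
  rw [this, one_mul]

lemma den_add_int (n u v : ℝ) (m m' : ℤ) : den n (u + m) (v + m') = den n u v := by
  unfold den
  rw [sin_sq_add_int, sin_sq_add_int]

lemma g_add_int (n u v : ℝ) (m m' : ℤ) : g n (u + m) (v + m') = g n u v := by
  unfold g
  rw [den_add_int]

lemma den_neg (n u v : ℝ) : den n (-u) (-v) = den n u v := by
  unfold den
  rw [mul_neg, mul_neg, sin_neg, sin_neg]
  ring

lemma g_neg (n u v : ℝ) : g n (-u) (-v) = g n u v := by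
  unfold g
  rw [den_neg]

lemma g_zero (n : ℝ) : g n 0 0 = 0 := by simp [g, den]

lemma den_symm (n u v : ℝ) : den n u v = den n v u := by unfold den; ring

lemma sin_lip (u' u : ℝ) : |sin (π * u') - sin (π * u)| ≤ π * |u' - u| := by
  have h := Real.lipschitzWith_sin.dist_le_mul (π * u') (π * u)
  rw [Real.dist_eq, Real.dist_eq, ← mul_sub, abs_mul, abs_of_pos Real.pi_pos] at h
  simpa using h

lemma inv_den_lip {n : ℝ} (hn : 0 ≤ n) (u' v' u v : ℝ) :
    |(den n u' v')⁻¹ - (den n u v)⁻¹| ≤ π * n * (|u' - u| + |v' - v|) := by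
  have hD := den_pos n u v
  have hD' := den_pos n u' v'
  have h1D := one_le_den n u v
  have h1D' := one_le_den n u' v'
  set S := sin (π * u)
  set S' := sin (π * u')
  set T := sin (π * v)
  set T' := sin (π * v')
  have eD : den n u v = 1 + n ^ 2 * (S ^ 2 + T ^ 2) := rfl
  have eD' : den n u' v' = 1 + n ^ 2 * (S' ^ 2 + T' ^ 2) := rfl
  have hDD : den n u v ≤ den n u v * den n u' v' := le_mul_of_one_le_right hD.le h1D'
  have hDD' : den n u' v' ≤ den n u v * den n u' v' := le_mul_of_one_le_left hD'.le h1D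
  have q1 : ∀ X : ℝ, 2 * (n * |X|) ≤ 1 + n ^ 2 * X ^ 2 := by
    intro X
    have := sq_nonneg (n * |X| - 1)
    have h2 : (n * |X|) ^ 2 = n ^ 2 * X ^ 2 := by rw [mul_pow, sq_abs]
    nlinarith
  have a1 : 2 * (n * |S|) ≤ den n u v := (q1 S).trans (by rw [eD]; nlinarith [mul_nonneg (sq_nonneg n) (sq_nonneg T)])
  have a2 : 2 * (n * |T|) ≤ den n u v := (q1 T).trans (by rw [eD]; nlinarith [mul_nonneg (sq_nonneg n) (sq_nonneg S)])
  have a3 : 2 * (n * |S'|) ≤ den n u' v' := (q1 S').trans (by rw [eD']; nlinarith [mul_nonneg (sq_nonneg n) (sq_nonneg T')])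
  have a4 : 2 * (n * |T'|) ≤ den n u' v' := (q1 T').trans (by rw [eD']; nlinarith [mul_nonneg (sq_nonneg n) (sq_nonneg S')])
  have b1 : n * (|S'| + |S|) ≤ den n u v * den n u' v' := by linarith
  have b2 : n * (|T'| + |T|) ≤ den n u v * den n u' v' := by linarith
  have e1 : (den n u' v')⁻¹ - (den n u v)⁻¹ =
      (den n u v - den n u' v') / (den n u v * den n u' v') := by
    field_simp
  rw [e1, abs_div, abs_of_pos (mul_pos hD hD'), div_le_iff₀ (mul_pos hD hD')]
  have e2 : den n u v - den n u' v' = -(n * ((S' - S) * (n * (S' + S)) + (T' - T) * (n * (T' + T)))) := by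
    rw [eD, eD']; ring
  rw [e2, abs_neg, abs_mul, abs_of_nonneg hn]
  have c1 : |(S' - S) * (n * (S' + S))| ≤ π * |u' - u| * (den n u v * den n u' v') := by
    rw [abs_mul, abs_mul, abs_of_nonneg hn]
    have := sin_lip u' u
    apply mul_le_mul this _ (by positivity) (by positivity)
    exact (mul_le_mul_of_nonneg_left (abs_add_le _ _) hn).trans b1
  have c2 : |(T' - T) * (n * (T' + T))| ≤ π * |v' - v| * (den n u v * den n u' v') := by
    rw [abs_mul, abs_mul, abs_of_nonneg hn]
    have := sin_lip v' v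
    apply mul_le_mul this _ (by positivity) (by positivity)
    exact (mul_le_mul_of_nonneg_left (abs_add_le _ _) hn).trans b2
  calc n * |(S' - S) * (n * (S' + S)) + (T' - T) * (n * (T' + T))|
      ≤ n * (π * |u' - u| * (den n u v * den n u' v') + π * |v' - v| * (den n u v * den n u' v')) :=
        mul_le_mul_of_nonneg_left ((abs_add_le _ _).trans (add_le_add c1 c2)) hn
    _ = _ := by ring

lemma g_lip {n : ℝ} (hn : 0 ≤ n) (u' v' u v : ℝ) :
    |g n u' v' - g n u v| ≤ π * n * (|u' - u| + |v' - v|) := by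
  have h := inv_den_lip hn u' v' u v
  have e : g n u' v' - g n u v = -((den n u' v')⁻¹ - (den n u v)⁻¹) := by unfold g; ring
  rw [e, abs_neg]
  exact h

lemma g_lower {n u v : ℝ} (h : 1 / 4 ≤ n ^ 2 * (sin (π * u) ^ 2 + sin (π * v) ^ 2)) :
    1 / 5 ≤ g n u v := by
  unfold g
  have h1 : 5 / 4 ≤ den n u v := by unfold den; linarith
  have h2 : (den n u v)⁻¹ ≤ 4 / 5 := by
    rw [inv_le_comm₀ (den_pos n u v) (by norm_num)]
    norm_num
    exact h1
  linarith

/-- The first partial derivative of the bump function. -/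
noncomputable def g1 (n u v : ℝ) : ℝ := n ^ 2 * π * sin (2 * (π * u)) * ((den n u v)⁻¹ * (den n u v)⁻¹)

lemma g1_add_int (n u v : ℝ) (m m' : ℤ) : g1 n (u + m) (v + m') = g1 n u v := by
  unfold g1
  rw [den_add_int]
  congr 2
  rw [show 2 * (π * (u + m)) = 2 * (π * u) + m * (2 * π) by ring, Real.sin_add_int_mul_two_pi]

lemma g1_lip {n : ℝ} (hn : 1 ≤ n) (u' v' u v : ℝ) :
    |g1 n u' v' - g1 n u v| ≤ 4 * π ^ 2 * n ^ 3 * (|u' - u| + |v' - v|) := by
  have hn0 : 0 ≤ n := by linarith
  set D := (den n u v)⁻¹ with hD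
  set D' := (den n u' v')⁻¹ with hD'
  have d0 : 0 < D := inv_pos.mpr (den_pos n u v)
  have d0' : 0 < D' := inv_pos.mpr (den_pos n u' v')
  have d1 : D ≤ 1 := inv_le_one_of_one_le₀ (one_le_den n u v)
  have d1' : D' ≤ 1 := inv_le_one_of_one_le₀ (one_le_den n u' v')
  have hl : |D' - D| ≤ π * n * (|u' - u| + |v' - v|) := inv_den_lip hn0 u' v' u v
  set s := sin (2 * (π * u)) with hs
  set s' := sin (2 * (π * u')) with hs'
  have hss : |s' - s| ≤ 2 * π * |u' - u| := by
    have h := Real.lipschitzWith_sin.dist_le_mul (2 * (π * u')) (2 * (π * u))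
    rw [Real.dist_eq, Real.dist_eq, ← mul_sub, ← mul_sub, abs_mul, abs_mul,
      abs_of_pos Real.pi_pos, abs_of_pos (by norm_num : (0 : ℝ) < 2)] at h
    simp only [NNReal.coe_one, one_mul] at h
    linarith
  have hs1 : |s| ≤ 1 := abs_sin_le_one _
  have e : g1 n u' v' - g1 n u v = n ^ 2 * π * ((s' - s) * (D' * D') + s * ((D' - D) * (D' + D))) := by
    unfold g1
    ring
  have hpi := Real.pi_pos
  rw [e, abs_mul, abs_of_nonneg (by positivity)]
  have h1 : |(s' - s) * (D' * D')| ≤ 2 * π * |u' - u| := by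
    rw [abs_mul, abs_of_pos (mul_pos d0' d0')]
    have : D' * D' ≤ 1 := by nlinarith
    calc |s' - s| * (D' * D') ≤ |s' - s| * 1 := mul_le_mul_of_nonneg_left this (abs_nonneg _)
      _ ≤ _ := by linarith
  have h2 : |s * ((D' - D) * (D' + D))| ≤ 2 * (π * n * (|u' - u| + |v' - v|)) := by
    rw [abs_mul, abs_mul, abs_of_pos (add_pos d0' d0)]
    have h3 : |D' - D| * (D' + D) ≤ (π * n * (|u' - u| + |v' - v|)) * 2 := by
      apply mul_le_mul hl (by linarith) (by linarith) (by positivity)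
    have h4 : |s| * (|D' - D| * (D' + D)) ≤ 1 * (|D' - D| * (D' + D)) :=
      mul_le_mul_of_nonneg_right hs1 (mul_nonneg (abs_nonneg _) (by linarith))
    linarith
  have h5 : 2 * π * |u' - u| ≤ 2 * (π * n * (|u' - u| + |v' - v|)) := by
    have : |u' - u| ≤ n * (|u' - u| + |v' - v|) := by
      nlinarith [abs_nonneg (u' - u), abs_nonneg (v' - v)]
    nlinarith
  calc n ^ 2 * π * |(s' - s) * (D' * D') + s * ((D' - D) * (D' + D))|
      ≤ n ^ 2 * π * (4 * (π * n * (|u' - u| + |v' - v|))) := by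
        apply mul_le_mul_of_nonneg_left _ (by positivity)
        refine (abs_add_le _ _).trans ?_
        linarith
    _ = _ := by ring

section deriv

variable {E : Type*} [NormedAddCommGroup E] [NormedSpace ℝ E]

lemma contDiff_g (n : ℝ) (L1 L2 : E →L[ℝ] ℝ) {m : WithTop ℕ∞} :
    ContDiff ℝ m (fun x => g n (L1 x) (L2 x)) := by
  unfold g
  refine contDiff_const.sub (ContDiff.inv ?_ fun x => (den_pos n _ _).ne')
  unfold den
  fun_prop

lemma hasFDerivAt_g (n : ℝ) (L1 L2 : E →L[ℝ] ℝ) (x : E) :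
    HasFDerivAt (fun x => g n (L1 x) (L2 x))
      (g1 n (L1 x) (L2 x) • L1 + g1 n (L2 x) (L1 x) • L2) x := by
  have hS : HasFDerivAt (fun x => sin (π * L1 x)) (cos (π * L1 x) • (π • L1)) x :=
    (L1.hasFDerivAt.const_mul π).sin
  have hT : HasFDerivAt (fun x => sin (π * L2 x)) (cos (π * L2 x) • (π • L2)) x :=
    (L2.hasFDerivAt.const_mul π).sin
  have hD : HasFDerivAt (fun x => den n (L1 x) (L2 x))
      (n ^ 2 • ((2 * sin (π * L1 x)) • (cos (π * L1 x) • (π • L1)) +
        (2 * sin (π * L2 x)) • (cos (π * L2 x) • (π • L2)))) x := by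
    have h := ((hS.pow 2).add (hT.pow 2)).const_mul (n ^ 2) |>.const_add 1
    refine h.congr_fderiv ?_
    ext y
    simp
    try ring
  have hI := (hasDerivAt_inv (den_pos n (L1 x) (L2 x)).ne').comp_hasFDerivAt x hD
  have hG := hI.const_sub 1
  refine hG.congr_fderiv ?_
  ext y
  simp only [g1, den_symm n (L2 x) (L1 x), Real.sin_two_mul]
  have hne := (den_pos n (L1 x) (L2 x)).ne'
  simp
  field_simp
  try ring

end deriv

end Pool.Agent.R239.Besi
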