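import Pool.Agent.R239.Besi.Phi

/-!
The Besicovitch cylindrical transformation over the two-dimensional torus.
-/

open Set Topology Filter TopologicalSpace

namespace Pool.Agent.R239.Besi

/-- The two-dimensional torus. -/
abbrev T2 : Type := UnitAddCircle × UnitAddCircle

/-- The projection of the plane onto the torus. -/
def toT2 (x : ℝ × ℝ) : T2 := ((x.1 : UnitAddCircle), (x.2 : UnitAddCircle))

/-- The cylindrical transformation `(x, t) ↦ (x + a, t + f x)`. -/
def cyl (a : T2) (f : C(T2, ℝ)) : T2 × ℝ ≃ₜ T2 × ℝ where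
  toFun p := (p.1 + a, p.2 + f p.1)
  invFun p := (p.1 - a, p.2 - f (p.1 - a))
  left_inv p := by simp
  right_inv p := by simp
  continuous_toFun := by fun_prop
  continuous_invFun := by fun_prop

lemma toT2_add (x y : ℝ × ℝ) : toT2 (x + y) = toT2 x + toT2 y := by
  ext <;> simp [toT2]

lemma toT2_zsmul (n : ℤ) (x : ℝ × ℝ) : toT2 (n • x) = n • toT2 x := by
  ext <;> simp [toT2]

lemma toT2_intPt (p q : ℤ) : toT2 (intPt p q) = 0 := by
  ext
  · simp only [toT2, intPt, Prod.fst_zero]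
    rw [AddCircle.coe_eq_zero_iff]
    exact ⟨p, by simp⟩
  · simp only [toT2, intPt, Prod.snd_zero]
    rw [AddCircle.coe_eq_zero_iff]
    exact ⟨q, by simp⟩

lemma toT2_surjective : Function.Surjective toT2 := by
  rintro ⟨a, b⟩
  obtain ⟨x, rfl⟩ := QuotientAddGroup.mk_surjective a
  obtain ⟨y, rfl⟩ := QuotientAddGroup.mk_surjective b
  exact ⟨(x, y), rfl⟩

lemma toT2_eq {x y : ℝ × ℝ} (h : toT2 x = toT2 y) : ∃ p q : ℤ, x = y + intPt p q := by
  have h1 : ((x.1 : UnitAddCircle)) = y.1 := congrArg Prod.fst h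
  have h2 : ((x.2 : UnitAddCircle)) = y.2 := congrArg Prod.snd h
  have h3 : ((x.1 - y.1 : ℝ) : UnitAddCircle) = 0 := by
    rw [AddCircle.coe_sub, h1, sub_self]
  have h4 : ((x.2 - y.2 : ℝ) : UnitAddCircle) = 0 := by
    rw [AddCircle.coe_sub, h2, sub_self]
  rw [AddCircle.coe_eq_zero_iff] at h3 h4
  obtain ⟨p, hp⟩ := h3
  obtain ⟨q, hq⟩ := h4
  refine ⟨p, q, ?_⟩
  ext
  · simp only [Prod.fst_add, intPt]
    simp at hp
    linarith
  · simp only [Prod.snd_add, intPt]
    simp at hq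
    linarith

lemma continuous_toT2 : Continuous toT2 := by
  unfold toT2
  exact ((AddCircle.continuous_mk' 1).comp continuous_fst).prodMk
    ((AddCircle.continuous_mk' 1).comp continuous_snd)

lemma isOpenMap_toT2 : IsOpenMap toT2 := by
  have h1 : IsOpenMap (QuotientAddGroup.mk : ℝ → UnitAddCircle) := QuotientAddGroup.isOpenMap_coe
  exact h1.prodMap h1

lemma isQuotientMap_toT2 : IsQuotientMap toT2 :=
  isOpenMap_toT2.isQuotientMap continuous_toT2 toT2_surjective

/-- The function on the torus. -/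
noncomputable def phiT (x : T2) : ℝ := phi (Function.surjInv toT2_surjective x)

lemma phiT_toT2 (x : ℝ × ℝ) : phiT (toT2 x) = phi x := by
  unfold phiT
  obtain ⟨p, q, h⟩ := toT2_eq (Function.surjInv_eq toT2_surjective (toT2 x))
  rw [h, phi_periodic]

lemma continuous_phiT : Continuous phiT := by
  rw [isQuotientMap_toT2.continuous_iff]
  have : phiT ∘ toT2 = phi := funext phiT_toT2
  rw [this]
  exact contDiff_phi.continuous

noncomputable def phiC : C(T2, ℝ) := ⟨phiT, continuous_phiT⟩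

lemma cyl_zpow (n : ℤ) (x : ℝ × ℝ) (t : ℝ) :
    (cyl (toT2 alpha) phiC ^ n) (toT2 x, t) = (toT2 (x + n • alpha), t + F n x) := by
  have step : ∀ (x : ℝ × ℝ) (t : ℝ), cyl (toT2 alpha) phiC (toT2 x, t) =
      (toT2 (x + alpha), t + phi x) := by
    intro x t
    show (toT2 x + toT2 alpha, t + phiT (toT2 x)) = _
    rw [phiT_toT2, toT2_add]
  induction n using Int.induction_on generalizing x t with
  | zero => simp [F_zero]
  | succ n ih =>
    rw [add_comm (n : ℤ) 1, zpow_add, zpow_one, Homeomorph.mul_apply, ih, step]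
    rw [add_comm (1 : ℤ) n, F_add, F_one, add_smul, one_smul, add_assoc, add_assoc]
  | pred n ih =>
    have h1 : cyl (toT2 alpha) phiC ((cyl (toT2 alpha) phiC ^ (-(n : ℤ) - 1)) (toT2 x, t)) =
        cyl (toT2 alpha) phiC (toT2 (x + (-(n : ℤ) - 1) • alpha), t + F (-(n : ℤ) - 1) x) := by
      rw [step, ← Homeomorph.mul_apply, ← zpow_one_add, show (1 : ℤ) + (-(n : ℤ) - 1) = -n by ring, ih]
      have e := F_add (-(n : ℤ) - 1) 1 x
      rw [show (-(n : ℤ) - 1) + 1 = -n by ring, F_one] at e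
      rw [e, add_assoc x, add_assoc t]
      congr 3
      rw [sub_smul, one_smul]
      abel
    exact (cyl (toT2 alpha) phiC).injective h1

/-- Every orbit of the rotation is dense. -/
theorem minimal_rotation (x : T2) : Dense (range fun n : ℤ => x + n • toT2 alpha) := by
  obtain ⟨y, rfl⟩ := toT2_surjective x
  intro z
  obtain ⟨y', rfl⟩ := toT2_surjective z
  rw [mem_closure_iff_nhds]
  intro V hV
  have h1 : toT2 ⁻¹' V ∈ 𝓝 y' := continuous_toT2.continuousAt.preimage_mem_nhds hV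
  obtain ⟨ε, hε, hball⟩ := Metric.mem_nhds_iff.mp h1
  obtain ⟨m, p, q, h⟩ := rotation_dense y y' ε hε
  have h2 : y + m • alpha - intPt p q ∈ Metric.ball y' ε := by
    rw [mem_ball_iff_norm]
    have e : y + m • alpha - intPt p q - y' = y + m • alpha - y' - intPt p q := by abel
    rw [e]
    exact h
  have h3 := hball h2
  have h4 : toT2 (y + m • alpha - intPt p q) = toT2 y + m • toT2 alpha := by
    have e : y + m • alpha = (y + m • alpha - intPt p q) + intPt p q := by abel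
    rw [← toT2_zsmul, ← toT2_add, e, toT2_add _ (intPt p q), toT2_intPt, add_zero]
    congr 1
    abel
  refine ⟨toT2 y + m • toT2 alpha, ?_, ⟨m, rfl⟩⟩
  rw [← h4]
  exact h3

/-- Transitivity on the cylinder over the torus. -/
lemma transitive_cyl (U V : Set (T2 × ℝ)) (hU : IsOpen U) (hV : IsOpen V) (hUn : U.Nonempty)
    (hVn : V.Nonempty) : ∃ n : ℤ, ∃ p ∈ U, (cyl (toT2 alpha) phiC ^ n) p ∈ V := by
  obtain ⟨⟨a, t⟩, ha⟩ := hUn
  obtain ⟨⟨b, t'⟩, hb⟩ := hVn
  obtain ⟨y, rfl⟩ := toT2_surjective a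
  obtain ⟨y', rfl⟩ := toT2_surjective b
  have hc : Continuous fun p : (ℝ × ℝ) × ℝ => (toT2 p.1, p.2) :=
    (continuous_toT2.comp continuous_fst).prodMk continuous_snd
  have h1 : (fun p : (ℝ × ℝ) × ℝ => (toT2 p.1, p.2)) ⁻¹' U ∈ 𝓝 (y, t) :=
    hc.continuousAt.preimage_mem_nhds (hU.mem_nhds ha)
  have h2 : (fun p : (ℝ × ℝ) × ℝ => (toT2 p.1, p.2)) ⁻¹' V ∈ 𝓝 (y', t') :=
    hc.continuousAt.preimage_mem_nhds (hV.mem_nhds hb)
  obtain ⟨ε1, hε1, hb1⟩ := Metric.mem_nhds_iff.mp h1
  obtain ⟨ε2, hε2, hb2⟩ := Metric.mem_nhds_iff.mp h2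
  obtain ⟨x, n, p, q, hx1, hx2, hx3⟩ := transitive_lift y y' t t' (min ε1 ε2) (lt_min hε1 hε2)
  refine ⟨n, (toT2 x, t), ?_, ?_⟩
  · have h3 : ((x, t) : (ℝ × ℝ) × ℝ) ∈ Metric.ball (y, t) ε1 := by
      rw [Metric.mem_ball, Prod.dist_eq]
      apply max_lt
      · show dist x y < ε1
        rw [dist_eq_norm]
        exact lt_of_lt_of_le hx1 (min_le_left _ _)
      · show dist t t < ε1
        rw [dist_self]
        exact hε1
    exact hb1 h3
  · rw [cyl_zpow]
    have h3 : (x + n • alpha - intPt p q, t + F n x) ∈ Metric.ball (y', t') ε2 := by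
      rw [Metric.mem_ball, Prod.dist_eq]
      apply max_lt
      · show dist (x + n • alpha - intPt p q) y' < ε2
        rw [dist_eq_norm]
        refine lt_of_lt_of_le ?_ (min_le_right ε1 ε2)
        have e : x + n • alpha - intPt p q - y' = x + n • alpha - y' - intPt p q := by abel
        rw [e]
        exact hx2
      · show dist (t + F n x) t' < ε2
        rw [Real.dist_eq]
        exact lt_of_lt_of_le hx3 (min_le_right _ _)
    have h4 := hb2 h3
    have h5 : toT2 (x + n • alpha - intPt p q) = toT2 (x + n • alpha) := by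
      have e : x + n • alpha = (x + n • alpha - intPt p q) + intPt p q := by abel
      conv_rhs => rw [e, toT2_add, toT2_intPt, add_zero]
    have h6 : (toT2 (x + n • alpha - intPt p q), t + F n x) ∈ V := h4
    rw [h5] at h6
    exact h6

/-- There is a dense orbit. -/
theorem exists_dense_orbit :
    ∃ p : T2 × ℝ, Dense (range fun n : ℤ => (cyl (toT2 alpha) phiC ^ n) p) := by
  have hcb := countable_countableBasis (T2 × ℝ)
  have hopen : ∀ B ∈ countableBasis (T2 × ℝ),
      IsOpen (⋃ n : ℤ, (cyl (toT2 alpha) phiC ^ n) ⁻¹' B) := fun B hB =>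
    isOpen_iUnion fun n => (isOpen_of_mem_countableBasis hB).preimage
      (cyl (toT2 alpha) phiC ^ n).continuous
  have hdense : ∀ B ∈ countableBasis (T2 × ℝ),
      Dense (⋃ n : ℤ, (cyl (toT2 alpha) phiC ^ n) ⁻¹' B) := by
    intro B hB
    rw [dense_iff_inter_open]
    intro U hU hUn
    obtain ⟨n, p, hp, hp2⟩ := transitive_cyl U B hU (isOpen_of_mem_countableBasis hB) hUn
      (nonempty_of_mem_countableBasis hB)
    exact ⟨p, hp, mem_iUnion.mpr ⟨n, hp2⟩⟩
  have hd : Dense (⋂ B ∈ countableBasis (T2 × ℝ), ⋃ n : ℤ, (cyl (toT2 alpha) phiC ^ n) ⁻¹' B) :=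
    dense_biInter_of_isOpen hopen hcb hdense
  obtain ⟨p, hp⟩ := hd.nonempty
  refine ⟨p, ?_⟩
  rw [(isBasis_countableBasis (T2 × ℝ)).dense_iff]
  intro B hB hBn
  have h1 := mem_iInter₂.mp hp B hB
  obtain ⟨n, hn⟩ := mem_iUnion.mp h1
  exact ⟨_, hn, ⟨n, rfl⟩⟩

/-- The orbit of the origin leaves every bounded set. -/
theorem origin_orbit (M : ℝ) : ∃ n0 : ℤ, ∀ n : ℤ, n0 ≤ |n| →
    M ≤ ((cyl (toT2 alpha) phiC ^ n) (toT2 0, 0)).2 := by
  obtain ⟨n0, h⟩ := discrete_orbit M
  refine ⟨n0, fun n hn => ?_⟩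
  rw [cyl_zpow]
  simpa using h n hn

end Pool.Agent.R239.Besi
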