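import Pool.Agent.R239.Besi.Psi
import Pool.Agent.R239.NilRet.Plane

/-!
The cocycle over the plane: smoothness, the discrete orbit of the origin, and transitivity.
-/

open Set Topology Filter Real

namespace Pool.Agent.R239.Besi

/-- The cocycle generated by `phi`. -/
noncomputable def F (n : ℤ) (x : ℝ × ℝ) : ℝ :=
  ∑' i : ℕ, (psi (i + 20) (x + n • alpha) - psi (i + 20) x)

/-- The `C^1` function. -/
noncomputable def phi (x : ℝ × ℝ) : ℝ := ∑' i : ℕ, phk (i + 20) x

lemma summable_half : Summable fun i : ℕ => ((1 : ℝ) / 2) ^ (i + 20) :=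
  (summable_nat_add_iff 20).mpr (summable_geometric_of_lt_one (by norm_num) (by norm_num))

lemma tsum_half_le : ∑' i : ℕ, ((1 : ℝ) / 2) ^ (i + 20) ≤ 1 := by
  have h : ∑' i : ℕ, ((1 : ℝ) / 2) ^ (i + 20) = (∑' i : ℕ, ((1 : ℝ) / 2) ^ i) * (1 / 2) ^ 20 := by
    rw [← tsum_mul_right]
    congr 1
    ext i
    rw [pow_add]
  rw [h, tsum_geometric_two]
  norm_num

lemma term_bound (n : ℤ) (x : ℝ × ℝ) (i : ℕ) :
    |psi (i + 20) (x + n • alpha) - psi (i + 20) x| ≤ |(n : ℝ)| * (1 / 2) ^ (i + 20) := by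
  refine (psi_shift_zsmul (by omega) n x).trans ?_
  exact mul_le_mul_of_nonneg_left (v0_le (by omega)) (abs_nonneg _)

lemma summable_F (n : ℤ) (x : ℝ × ℝ) :
    Summable fun i : ℕ => psi (i + 20) (x + n • alpha) - psi (i + 20) x :=
  Summable.of_norm_bounded (summable_half.mul_left _) (fun i => term_bound n x i)

lemma F_zero (x : ℝ × ℝ) : F 0 x = 0 := by
  unfold F
  simp

lemma F_one (x : ℝ × ℝ) : F 1 x = phi x := by
  unfold F phi phk
  simp

lemma F_add (m n : ℤ) (x : ℝ × ℝ) : F (m + n) x = F m x + F n (x + m • alpha) := by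
  unfold F
  rw [← (summable_F m x).tsum_add (summable_F n (x + m • alpha))]
  congr 1
  ext i
  rw [add_smul, add_assoc]
  ring

lemma F_periodic (n : ℤ) (x : ℝ × ℝ) (p q : ℤ) : F n (x + intPt p q) = F n x := by
  unfold F
  congr 1
  ext i
  rw [add_right_comm, psi_periodic, psi_periodic]

lemma phi_periodic (x : ℝ × ℝ) (p q : ℤ) : phi (x + intPt p q) = phi x := by
  rw [← F_one, ← F_one, F_periodic]

lemma continuous_psi (k : ℕ) : Continuous (psi k) := (contDiff_psi k (m := 0)).continuous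

lemma continuous_F (n : ℤ) : Continuous (F n) := by
  unfold F
  refine continuous_tsum ?_ (summable_half.mul_left |(n : ℝ)|) fun i x => term_bound n x i
  intro i
  exact ((continuous_psi _).comp (continuous_id.add continuous_const)).sub (continuous_psi _)

theorem contDiff_phi : ContDiff ℝ 1 phi := by
  unfold phi
  apply contDiff_tsum (𝕜 := ℝ) (v := fun _ i => (1 / 2) ^ (i + 20)) (N := 1)
  · intro i
    exact contDiff_phk (i + 20)
  · intro k _
    exact summable_half
  · intro k i x hk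
    have hk' : k ≤ 1 := by exact_mod_cast hk
    interval_cases k
    · rw [norm_iteratedFDeriv_zero]
      exact phk_bound (by omega) x
    · rw [norm_iteratedFDeriv_one]
      exact fderiv_phk_bound (by omega) x

/-- Lower bound for the bump function along the orbit. -/
lemma lemmaA {k : ℕ} (hk : 1 ≤ k) {r : ℝ} (hr : 0 ≤ r) (h1 : 1 / (N k : ℝ) ^ 2 ≤ r * xi k)
    (h2 : r * xi k ≤ 1 / 2) : 1 / 5 ≤ g (N k) (r * eta k) (r * xi k) := by
  have hN := N_geR k
  have hN0 : (0 : ℝ) < N k := by linarith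
  have hsin : ∀ t : ℝ, 0 ≤ t → t ≤ 1 / 2 → 4 * t ^ 2 ≤ sin (π * t) ^ 2 := by
    intro t ht0 ht1
    have hpi := Real.pi_pos
    have := Real.mul_le_sin (x := π * t) (by positivity) (by nlinarith)
    have e : 2 / π * (π * t) = 2 * t := by field_simp
    rw [e] at this
    calc 4 * t ^ 2 = (2 * t) ^ 2 := by ring
      _ ≤ sin (π * t) ^ 2 := pow_le_pow_left₀ (by linarith) this 2
  set t := r * xi k with ht
  have ht0 : 0 ≤ t := mul_nonneg hr (xi_pos hk).le
  apply g_lower
  by_cases hc : 1 / (4 * (N k : ℝ)) ≤ t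
  · have h3 := hsin t ht0 h2
    have h4 : (1 / (4 * (N k : ℝ))) ^ 2 ≤ t ^ 2 := pow_le_pow_left₀ (by positivity) hc 2
    have h5 : 4 * (1 / (4 * (N k : ℝ))) ^ 2 ≤ sin (π * t) ^ 2 := by linarith
    have h6 : (N k : ℝ) ^ 2 * (4 * (1 / (4 * (N k : ℝ))) ^ 2) = 1 / 4 := by
      field_simp
      try norm_num
    have h7 := mul_le_mul_of_nonneg_left h5 (sq_nonneg (N k : ℝ))
    rw [h6] at h7
    have h8 := mul_nonneg (sq_nonneg (N k : ℝ)) (sq_nonneg (sin (π * (r * eta k))))
    linarith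
  · rw [not_le] at hc
    have e1 : r * eta k = N k * t - r * xi (k + 1) := by rw [eta_eq, ht]; ring
    have h3 : r * xi (k + 1) ≤ t := mul_le_mul_of_nonneg_left (xi_succ_le hk) hr
    have h3' : 0 ≤ r * xi (k + 1) := mul_nonneg hr (xi_pos (by omega)).le
    have h4 : r * eta k ≤ 1 / 4 := by
      rw [e1]
      have : N k * t < N k * (1 / (4 * (N k : ℝ))) := mul_lt_mul_of_pos_left hc hN0
      have e2 : (N k : ℝ) * (1 / (4 * (N k : ℝ))) = 1 / 4 := by field_simp
      linarith
    have h5 : 1 / (2 * (N k : ℝ)) ≤ r * eta k := by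
      rw [e1]
      have h6 : (N k : ℝ) * (1 / (N k : ℝ) ^ 2) ≤ N k * t := mul_le_mul_of_nonneg_left h1 hN0.le
      have e2 : (N k : ℝ) * (1 / (N k : ℝ) ^ 2) = 1 / N k := by field_simp
      have e3 : (1 : ℝ) / (2 * N k) = 1 / N k / 2 := by field_simp
      have h7 : t ≤ N k * t / 2 := by nlinarith
      rw [e2] at h6
      rw [e3]
      linarith
    have h6 := hsin (r * eta k) (le_trans (by positivity) h5) (by linarith)
    have h7 : (1 / (2 * (N k : ℝ))) ^ 2 ≤ (r * eta k) ^ 2 := pow_le_pow_left₀ (by positivity) h5 2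
    have h8 : (N k : ℝ) ^ 2 * (4 * (1 / (2 * (N k : ℝ))) ^ 2) = 1 := by
      field_simp
      try norm_num
    have h9 : 4 * (1 / (2 * (N k : ℝ))) ^ 2 ≤ sin (π * (r * eta k)) ^ 2 := by linarith
    have h10 := mul_le_mul_of_nonneg_left h9 (sq_nonneg (N k : ℝ))
    rw [h8] at h10
    have h11 := mul_nonneg (sq_nonneg (N k : ℝ)) (sq_nonneg (sin (π * t)))
    linarith

lemma psi_zsmul (k : ℕ) (n : ℤ) : psi k (n • alpha) = k * g (N k) (n * eta k) (n * xi k) := by
  have := psi_add k 0 (n • alpha) _ _ _ _ (Ll_zsmul_alpha k n) (Ls_zsmul_alpha k n)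
  simpa using this

lemma F_origin (n : ℤ) : F n 0 = ∑' i : ℕ, psi (i + 20) (n • alpha) := by
  unfold F
  congr 1
  ext i
  rw [zero_add, psi_zero, sub_zero]

lemma F_origin_ge (n : ℤ) {k : ℕ} (hk : 20 ≤ k) : psi k (n • alpha) ≤ F n 0 := by
  rw [F_origin]
  have hs : Summable fun i : ℕ => psi (i + 20) (n • alpha) := by
    have := summable_F n 0
    refine this.congr fun i => ?_
    rw [zero_add, psi_zero, sub_zero]
  have := hs.le_tsum (k - 20) (fun j _ => psi_nonneg _ _)
  rw [show k - 20 + 20 = k by omega] at this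
  exact this

lemma F_origin_neg (n : ℤ) : F (-n) 0 = F n 0 := by
  rw [F_origin, F_origin]
  congr 1
  ext i
  rw [neg_smul, psi_neg]

lemma tendsto_xi : Tendsto xi atTop (𝓝 0) := by
  have h1 : ∀ k : ℕ, 20 ≤ k → |xi k| ≤ 2 * (1 / 2) ^ k := by
    intro k hk
    rw [abs_of_pos (xi_pos (by omega))]
    refine (xi_upper (by omega)).trans ?_
    have hQ := Q_pos (k := k) (by omega)
    have hQ1 := Q_mono (j := k) (k := k + 1) (by omega)
    have hb := Q_big hk
    have hk1 : (1 : ℝ) ≤ k := by exact_mod_cast (by omega : 1 ≤ k)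
    have h2 : (2 : ℝ) ^ k ≤ Q (k + 1) := by
      have : (0 : ℝ) < 2 ^ k := by positivity
      nlinarith
    calc (2 : ℝ) / Q (k + 1) ≤ 2 / 2 ^ k := by gcongr
      _ = 2 * (1 / 2) ^ k := by rw [one_div, inv_pow]; ring
  have h2 : Tendsto (fun k : ℕ => 2 * (1 / 2 : ℝ) ^ k) atTop (𝓝 0) := by
    have := (tendsto_pow_atTop_nhds_zero_of_lt_one (r := (1 / 2 : ℝ)) (by norm_num)
      (by norm_num)).const_mul 2
    simpa using this
  refine squeeze_zero_norm' ?_ h2
  filter_upwards [eventually_ge_atTop 20] with k hk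
  exact h1 k hk

/-- The orbit of the origin tends to infinity. -/
theorem discrete_orbit (M : ℝ) : ∃ n0 : ℤ, ∀ n : ℤ, n0 ≤ |n| → M ≤ F n 0 := by
  obtain ⟨K, hK20, hKM⟩ : ∃ K : ℕ, 20 ≤ K ∧ 5 * M ≤ K := by
    obtain ⟨K, hK⟩ := exists_nat_ge (5 * M)
    exact ⟨max K 20, le_max_right _ _, hK.trans (by exact_mod_cast le_max_left K 20)⟩
  have hxK := xi_pos (k := K) (by omega)
  obtain ⟨n0, hn0⟩ := exists_nat_gt (1 / (2 * xi K))
  refine ⟨n0, ?_⟩
  have pos_case : ∀ n : ℤ, (n0 : ℤ) ≤ n → M ≤ F n 0 := by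
    intro n hn
    have hnr : (1 : ℝ) / (2 * xi K) < n := lt_of_lt_of_le hn0 (by exact_mod_cast hn)
    have hnpos : (0 : ℝ) < n := lt_trans (by positivity) hnr
    have hnK : 1 / 2 < n * xi K := by
      rw [div_lt_iff₀ (by positivity)] at hnr
      linarith
    -- first index at which the product drops below one half
    have hex : ∃ k : ℕ, K ≤ k ∧ n * xi k ≤ 1 / 2 := by
      have h1 : Tendsto (fun k => (n : ℝ) * xi k) atTop (𝓝 0) := by
        simpa using tendsto_xi.const_mul (n : ℝ)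
      obtain ⟨K', hK'⟩ := eventually_atTop.mp (h1.eventually (ge_mem_nhds (show (0 : ℝ) < 1 / 2 by norm_num)))
      exact ⟨max K K', le_max_left _ _, hK' _ (le_max_right _ _)⟩
    classical
    set k := Nat.find hex with hk
    obtain ⟨hk1, hk2⟩ := Nat.find_spec hex
    rw [← hk] at hk1 hk2
    have hkK : k ≠ K := by
      intro h
      rw [h] at hk2
      linarith
    obtain ⟨j, hj⟩ : ∃ j, k = j + 1 := ⟨k - 1, by omega⟩
    have hjK : K ≤ j := by omega
    have hj2 : 1 / 2 < n * xi j := by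
      by_contra hcon
      rw [not_lt] at hcon
      have := Nat.find_min' hex ⟨hjK, hcon⟩
      omega
    have h3 : xi j ≤ (N (j + 1) : ℝ) ^ 2 / 2 * xi (j + 1) := xi_ratio (by omega)
    rw [← hj] at h3
    have hNk := N_posR k
    have h4 : 1 / (N k : ℝ) ^ 2 ≤ n * xi k := by
      rw [div_le_iff₀ (by positivity)]
      have := mul_le_mul_of_nonneg_left h3 hnpos.le
      nlinarith
    have h5 := lemmaA (k := k) (by omega) hnpos.le h4 hk2
    have h6 := F_origin_ge n (k := k) (by omega)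
    rw [psi_zsmul] at h6
    have hkr : (K : ℝ) ≤ k := by exact_mod_cast hk1
    have hk0 : (0 : ℝ) ≤ k := Nat.cast_nonneg k
    have h7 : (k : ℝ) * (1 / 5) ≤ k * g (N k) (n * eta k) (n * xi k) :=
      mul_le_mul_of_nonneg_left h5 hk0
    linarith
  intro n hn
  rcases le_total 0 n with h | h
  · rw [abs_of_nonneg h] at hn
    exact pos_case n hn
  · rw [abs_of_nonpos h] at hn
    rw [← F_origin_neg]
    exact pos_case (-n) hn

/-- `delta_k` as a vector. -/
noncomputable def delta (k : ℕ) : ℝ × ℝ := (d1 k, d2 k)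

lemma Q_smul_alpha (k : ℕ) : (Q k : ℤ) • alpha = delta k + intPt (A k) (B k) := by
  ext
  · simp [alpha, delta, d1, intPt]
  · simp [alpha, delta, d2, intPt]

lemma Ls_delta (k : ℕ) : Ls k (delta k) = Q k * xi k := by
  rw [Ls_apply]; exact s_delta k
lemma Ll_delta (k : ℕ) : Ll k (delta k) = Q k * eta k := by
  rw [Ll_apply]; exact l_delta k

lemma delta_small {k : ℕ} (hk : 1 ≤ k) : ‖delta k‖ ≤ 4 * eps k := by
  have h := delta_bound hk
  rw [Prod.norm_def]
  apply max_le
  · show |d1 k| ≤ _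
    linarith [abs_nonneg (d2 k)]
  · show |d2 k| ≤ _
    linarith [abs_nonneg (d1 k)]

/-- The value of the main block near a lattice point. -/
lemma main_block {k : ℕ} (hk : 20 ≤ k) (x0 : ℝ × ℝ) (m m' : ℤ) (hm : Ll k x0 = m)
    (hm' : Ls k x0 = m') :
    psi k x0 = 0 ∧ (k : ℝ) / 5 ≤ psi k (x0 + delta k) ∧ (k : ℝ) / 5 ≤ psi k (x0 - delta k) := by
  have hQ := Q_pos (k := k) (by omega)
  have hQ1 := Q_pos (k := k + 1) (by omega)
  have hN := N_geR k
  have hN0 : (0 : ℝ) < N k := by linarith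
  have h1 : (Q k : ℝ) * xi k ≤ 1 / 2 := by
    have h := xi_upper (k := k) (by omega)
    have h3 := Q_succ_ge (k := k) (by omega)
    have h4 : (Q k : ℝ) * xi k ≤ Q k * (2 / Q (k + 1)) := mul_le_mul_of_nonneg_left h hQ.le
    refine h4.trans ?_
    rw [mul_div_assoc', div_le_div_iff₀ hQ1 (by norm_num)]
    have : (64 : ℝ) ≤ (N k : ℝ) ^ 2 := by nlinarith
    nlinarith
  have h2 : 1 / (N k : ℝ) ^ 2 ≤ Q k * xi k := by
    have h := xi_lower (k := k) (by omega)
    have h3 := Q_succ_le (k := k) (by omega)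
    refine le_trans ?_ (mul_le_mul_of_nonneg_left h hQ.le)
    rw [mul_one_div, div_le_div_iff₀ (by positivity) (by positivity)]
    nlinarith
  have hA := lemmaA (k := k) (by omega) hQ.le h2 h1
  have hk0 : (0 : ℝ) ≤ k := Nat.cast_nonneg k
  have hA' := mul_le_mul_of_nonneg_left hA hk0
  refine ⟨?_, ?_, ?_⟩
  · unfold psi
    rw [hm, hm']
    have := g_add_int (N k) 0 0 m m'
    rw [zero_add, zero_add] at this
    rw [this, g_zero, mul_zero]
  · unfold psi
    rw [map_add, map_add, hm, hm', Ls_delta, Ll_delta, add_comm (m : ℝ), add_comm (m' : ℝ),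
      g_add_int]
    linarith
  · unfold psi
    rw [map_sub, map_sub, hm, hm', Ls_delta, Ll_delta]
    have e1 : (m : ℝ) - Q k * eta k = -(Q k * eta k) + m := by ring
    have e2 : (m' : ℝ) - Q k * xi k = -(Q k * xi k) + m' := by ring
    rw [e1, e2, g_add_int, g_neg]
    linarith

/-- Contribution of the earlier blocks. -/
lemma cross_lt {j k : ℕ} (hj : 20 ≤ j) (hjk : j < k) (x : ℝ × ℝ) :
    |psi j (x + (Q k : ℤ) • alpha) - psi j x| ≤ (1 / 2) ^ j := by
  rw [Q_smul_alpha, ← add_assoc, psi_periodic]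
  refine (psi_shift j x (delta k) (Ll j (delta k)) (Ls j (delta k)) 0 0 (by simp) (by simp)).trans ?_
  have hLs := (Ls j).le_opNorm (delta k)
  have hLl := (Ll j).le_opNorm (delta k)
  rw [Real.norm_eq_abs] at hLs hLl
  have h1 := norm_Ls j
  have h2 := norm_Ll (k := j) (by omega)
  have h3 := delta_small (k := k) (by omega)
  have hPj := P_pos j
  have hNj := N_geR j
  have hNj1 := N_geR (j - 1)
  have hNk := N_geR k
  have hPk := P_pos k
  have hek := eps_pos k
  have hLs' : ‖Ls j‖ ≤ 2 * (2 ^ j * N (j - 1) * P j) := by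
    refine h1.trans ?_
    have : 0 < 2 ^ j * P j := by positivity
    nlinarith
  have hpi : π ≤ 4 := Real.pi_le_four
  have hpi0 := Real.pi_pos
  have hN0 : (0 : ℝ) < N j := by linarith
  have hNj0 : (0 : ℝ) < N (j - 1) := by linarith
  have hNk0 : (0 : ℝ) < N k := by linarith
  calc (j : ℝ) * (π * N j * (|Ll j (delta k)| + |Ls j (delta k)|))
      ≤ j * (4 * N j * (2 * (2 ^ j * N (j - 1) * P j) * (4 * eps k)
          + 2 * (2 ^ j * N (j - 1) * P j) * (4 * eps k))) := by
        gcongr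
        · exact hLl.trans (mul_le_mul h2 h3 (norm_nonneg _) (by positivity))
        · exact hLs.trans (mul_le_mul hLs' h3 (norm_nonneg _) (by positivity))
    _ = 64 * j * 2 ^ j * N (j - 1) * (P j * N j) * eps k := by ring
    _ ≤ 64 * j * 2 ^ j * N (k - 2) * P k * (32 ^ (k + 1) / (P k * N k)) := by
        have e1 : P j * N j ≤ P k := by
          rw [← P_succ (by omega : 1 ≤ j)]
          exact P_mono (by omega)
        have e2 : (N (j - 1) : ℝ) ≤ N (k - 2) := N_monoR (by omega)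
        have e3 : eps k = 32 ^ (k + 1) / (P k * N k) := by
          unfold eps
          rw [P_succ (by omega : 1 ≤ k)]
        rw [e3]
        gcongr
    _ = 64 * j * 2 ^ j * 32 ^ (k + 1) * N (k - 2) / N k := by field_simp
    _ ≤ (1 / 2) ^ j := by
        obtain ⟨l, rfl⟩ : ∃ l, k = l + 2 := ⟨k - 2, by omega⟩
        rw [show l + 2 - 2 = l from rfl]
        have e4 : (N (l + 2) : ℝ) = N l * 2 ^ (8 * l + 24) := by
          rw [N_eqR, N_eqR, show (2 : ℝ) ^ (8 * l + 24) = 4 ^ (4 * l + 12) by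
            rw [show (4 : ℝ) = 2 ^ 2 by norm_num, ← pow_mul]; congr 1; ring, ← pow_add]
          congr 1
          ring
        have hNl := N_posR l
        have hj2 : (j : ℝ) ≤ 2 ^ j := by
          have : j < 2 ^ j := Nat.lt_pow_self (by norm_num)
          exact_mod_cast this.le
        rw [e4, one_div, inv_pow, ← one_div, div_le_div_iff₀ (by positivity) (by positivity), one_mul]
        have e5 : (64 : ℝ) * 2 ^ j * 2 ^ j * 2 ^ j * 32 ^ (l + 3) ≤ 2 ^ (8 * l + 24) := by
          have e6 : (64 : ℝ) * 2 ^ j * 2 ^ j * 2 ^ j * 32 ^ (l + 3) = 2 ^ (6 + j + j + j + 5 * (l + 3)) := by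
            rw [show (64 : ℝ) = 2 ^ 6 by norm_num, show (32 : ℝ) = 2 ^ 5 by norm_num, ← pow_mul,
              ← pow_add, ← pow_add, ← pow_add, ← pow_add]
          rw [e6]
          apply pow_le_pow_right₀ (by norm_num)
          omega
        calc 64 * (j : ℝ) * 2 ^ j * 32 ^ (l + 2 + 1) * N l * 2 ^ j
            = (64 * j * 2 ^ j * 2 ^ j * 32 ^ (l + 3)) * N l := by ring
          _ ≤ (64 * 2 ^ j * 2 ^ j * 2 ^ j * 32 ^ (l + 3)) * N l := by gcongr
          _ ≤ 2 ^ (8 * l + 24) * N l := by gcongr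
          _ = N l * 2 ^ (8 * l + 24) := by ring

/-- Contribution of the later blocks. -/
lemma cross_gt {j k : ℕ} (hk : 20 ≤ k) (hjk : k < j) (x : ℝ × ℝ) :
    |psi j (x + (Q k : ℤ) • alpha) - psi j x| ≤ (1 / 2) ^ j := by
  refine (psi_shift_zsmul (k := j) (by omega) (Q k) x).trans ?_
  obtain ⟨i, rfl⟩ : ∃ i, j = i + 1 := ⟨j - 1, by omega⟩
  have hQk := Q_pos (k := k) (by omega)
  have hQi := Q_pos (k := i) (by omega)
  have hQ := Q_succ_ge (k := i) (by omega)
  have hmono := Q_mono (j := k) (k := i) (by omega)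
  have hQj := Q_pos (k := i + 1) (by omega)
  have hN := N_posR i
  rw [abs_of_pos hQk]
  have h1 : (Q k : ℝ) * (256 * ((i + 1 : ℕ) : ℝ) / Q (i + 1)) ≤
      4096 * ((i + 1 : ℕ) : ℝ) / (N i : ℝ) ^ 2 := by
    rw [mul_div_assoc', div_le_div_iff₀ hQj (by positivity)]
    have h2 : (N i : ℝ) ^ 2 * Q k ≤ 16 * Q (i + 1) := by
      have := mul_le_mul_of_nonneg_left hmono (sq_nonneg (N i : ℝ))
      linarith
    have h3 : (0 : ℝ) ≤ 256 * ((i + 1 : ℕ) : ℝ) := by positivity
    have := mul_le_mul_of_nonneg_left h2 h3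
    linarith
  refine h1.trans ?_
  rw [one_div, inv_pow, ← one_div, div_le_div_iff₀ (by positivity) (by positivity), one_mul]
  have hi2 : ((i + 1 : ℕ) : ℝ) ≤ 2 ^ (i + 1) := by
    have : (i + 1) < 2 ^ (i + 1) := Nat.lt_pow_self (by norm_num)
    exact_mod_cast this.le
  calc 4096 * ((i + 1 : ℕ) : ℝ) * 2 ^ (i + 1) ≤ 4096 * 2 ^ (i + 1) * 2 ^ (i + 1) := by gcongr
    _ = 4 ^ (6 + (i + 1)) := by
        rw [pow_add (4 : ℝ) 6, show (4 : ℝ) = 2 * 2 by norm_num, mul_pow, mul_pow]
        norm_num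
        ring
    _ ≤ 4 ^ ((i + 2) ^ 2 * 2) := by
        apply pow_le_pow_right₀ (by norm_num)
        nlinarith
    _ = (N i : ℝ) ^ 2 := by rw [N_eqR, ← pow_mul]

/-- The cocycle at time `Q k` is dominated by the main block. -/
lemma F_Q {k : ℕ} (hk : 20 ≤ k) (x : ℝ × ℝ) :
    |F (Q k) x - (psi k (x + (Q k : ℤ) • alpha) - psi k x)| ≤ 1 := by
  have hs := summable_F (Q k) x
  have h1 : F (Q k) x = (psi (k - 20 + 20) (x + (Q k : ℤ) • alpha) - psi (k - 20 + 20) x) +
      ∑' i : ℕ, ite (i = k - 20) 0 (psi (i + 20) (x + (Q k : ℤ) • alpha) - psi (i + 20) x) :=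
    hs.tsum_eq_add_tsum_ite (k - 20)
  rw [show k - 20 + 20 = k by omega] at h1
  rw [h1, add_sub_cancel_left]
  have hb : ∀ i : ℕ, ‖ite (i = k - 20) 0 (psi (i + 20) (x + (Q k : ℤ) • alpha) - psi (i + 20) x)‖
      ≤ (1 / 2) ^ (i + 20) := by
    intro i
    split_ifs with h
    · rw [norm_zero]; positivity
    · rw [Real.norm_eq_abs]
      rcases lt_or_gt_of_ne (show i + 20 ≠ k by omega) with h2 | h2
      · exact cross_lt (by omega) h2 x
      · exact cross_gt hk h2 x
  refine (tsum_of_norm_bounded summable_half.hasSum hb).trans tsum_half_le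

/-- The lattice points are dense in the limit. -/
lemma exists_lattice {k : ℕ} (hk : 20 ≤ k) (y : ℝ × ℝ) : ∃ x0 : ℝ × ℝ, ∃ m m' : ℤ,
    Ll k x0 = m ∧ Ls k x0 = m' ∧ ‖x0 - y‖ ≤ (1 / 2) ^ k := by
  have hQ := Q_pos (k := k) (by omega)
  have hdet : (la k : ℝ) * sb k - lb k * sa k = Q k := by exact_mod_cast det_ls k
  set u : ℤ := round (Ll k y) with hu
  set v : ℤ := round (Ls k y) with hv
  have eu : |(u : ℝ) - Ll k y| ≤ 1 / 2 := by rw [abs_sub_comm]; exact abs_sub_round _
  have ev : |(v : ℝ) - Ls k y| ≤ 1 / 2 := by rw [abs_sub_comm]; exact abs_sub_round _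
  set e1 : ℝ := u - Ll k y with he1
  set e2 : ℝ := v - Ls k y with he2
  refine ⟨y + ((e1 * sb k - e2 * lb k) / Q k, (la k * e2 - sa k * e1) / Q k), u, v, ?_, ?_, ?_⟩
  · rw [map_add]
    have : (la k : ℝ) * ((e1 * sb k - e2 * lb k) / Q k) + lb k * ((la k * e2 - sa k * e1) / Q k)
        = e1 := by
      rw [mul_div_assoc', mul_div_assoc', ← add_div, div_eq_iff hQ.ne', ← hdet]
      ring
    have h2 : Ll k ((e1 * sb k - e2 * lb k) / Q k, (la k * e2 - sa k * e1) / Q k) = e1 := by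
      rw [Ll_apply]; exact this
    rw [h2, he1]
    ring
  · rw [map_add]
    have : (sa k : ℝ) * ((e1 * sb k - e2 * lb k) / Q k) + sb k * ((la k * e2 - sa k * e1) / Q k)
        = e2 := by
      rw [mul_div_assoc', mul_div_assoc', ← add_div, div_eq_iff hQ.ne', ← hdet]
      ring
    have h2 : Ls k ((e1 * sb k - e2 * lb k) / Q k, (la k * e2 - sa k * e1) / Q k) = e2 := by
      rw [Ls_apply]; exact this
    rw [h2, he2]
    ring
  · rw [add_sub_cancel_left]
    obtain ⟨j, rfl⟩ : ∃ j, k = j + 2 := ⟨k - 2, by omega⟩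
    have hla := la_bound j
    have hlb := lb_bound j
    have hsa := sa_bound (j + 2)
    have hsb := sb_bound (j + 2)
    have hP := P_pos (j + 2)
    have hN := N_geR (j + 1)
    have hs' : 2 ^ (j + 2) * P (j + 2) ≤ 2 ^ (j + 2) * (N (j + 1) : ℝ) * P (j + 2) := by
      have : 0 < 2 ^ (j + 2) * P (j + 2) := by positivity
      nlinarith
    have hbd : 2 ^ (j + 2) * (N (j + 1) : ℝ) * P (j + 2) / Q (j + 2) ≤ (1 / 2) ^ (j + 2) := by
      rw [div_le_iff₀ hQ, one_div, inv_pow, ← div_eq_inv_mul, le_div_iff₀ (by positivity)]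
      refine le_trans ?_ (Q_lower (by omega))
      rw [le_div_iff₀ (by positivity)]
      have hb := P_big hk
      rw [show j + 2 - 1 = j + 1 from rfl] at hb
      have hb2 := mul_le_mul_of_nonneg_right hb hP.le
      have hk1 : (1 : ℝ) ≤ ((j + 2 : ℕ) : ℝ) := by exact_mod_cast (by omega : 1 ≤ j + 2)
      have hN2 := N_geR (j + 2)
      have hN3 : (1 : ℝ) ≤ (N (j + 2) : ℝ) ^ 2 := by nlinarith
      have e : 2 ^ (j + 2) * (N (j + 1) : ℝ) * P (j + 2) * 2 ^ (j + 2) * 16 ^ (j + 2) =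
          64 ^ (j + 2) * N (j + 1) * P (j + 2) := by
        have : (64 : ℝ) ^ (j + 2) = 2 ^ (j + 2) * 2 ^ (j + 2) * 16 ^ (j + 2) := by
          rw [← mul_pow, ← mul_pow]; norm_num
        rw [this]; ring
      rw [e]
      calc 64 ^ (j + 2) * (N (j + 1) : ℝ) * P (j + 2)
          = 1 * 1 * 64 ^ (j + 2) * 1 * (N (j + 1) : ℝ) * P (j + 2) := by ring
        _ ≤ 10240 * ((j + 2 : ℕ) : ℝ) * 64 ^ (j + 2) * (N (j + 2) : ℝ) ^ 2 * N (j + 1) * P (j + 2) := by
            gcongr
            norm_num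
        _ ≤ P (j + 2) * P (j + 2) := hb2
        _ = P (j + 2) ^ 2 := by ring
    have gen : ∀ a b c d X : ℝ, |a| ≤ 1 / 2 → |c| ≤ 1 / 2 → |b| ≤ X → |d| ≤ X →
        |a * b - c * d| ≤ X := by
      intro a b c d X h1 h2 h3 h4
      calc |a * b - c * d| ≤ |a * b| + |c * d| := abs_sub _ _
        _ = |a| * |b| + |c| * |d| := by rw [abs_mul, abs_mul]
        _ ≤ 1 / 2 * X + 1 / 2 * X := by
            have := abs_nonneg b
            have := abs_nonneg d
            gcongr
        _ = X := by ring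
    rw [Prod.norm_def]
    apply max_le
    · show |(e1 * sb (j + 2) - e2 * lb (j + 2)) / Q (j + 2)| ≤ _
      rw [abs_div, abs_of_pos hQ]
      refine le_trans ?_ hbd
      apply div_le_div_of_nonneg_right _ hQ.le
      exact gen _ _ _ _ _ eu ev (hsb.trans hs') hlb
    · show |((la (j + 2) : ℝ) * e2 - sa (j + 2) * e1) / Q (j + 2)| ≤ _
      rw [abs_div, abs_of_pos hQ]
      refine le_trans ?_ hbd
      apply div_le_div_of_nonneg_right _ hQ.le
      rw [mul_comm (la (j + 2) : ℝ), mul_comm (sa (j + 2) : ℝ)]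
      exact gen _ _ _ _ _ ev eu hla (hsa.trans hs')

/-- Intermediate values of the cocycle at time `Q k`. -/
lemma exists_value {k : ℕ} (hk : 20 ≤ k) (x0 : ℝ × ℝ) (m m' : ℤ) (hm : Ll k x0 = m)
    (hm' : Ls k x0 = m') (r : ℝ) (hr : |r| ≤ k / 5 - 1) :
    ∃ s ∈ Icc (0 : ℝ) 1, F (Q k) (x0 - s • delta k) = r := by
  obtain ⟨h0, h1, h2⟩ := main_block hk x0 m m' hm hm'
  have hc : Continuous fun s : ℝ => F (Q k) (x0 - s • delta k) :=
    (continuous_F (Q k)).comp (continuous_const.sub (continuous_id.smul continuous_const))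
  have e0 : r ≤ F (Q k) (x0 - (0 : ℝ) • delta k) := by
    rw [zero_smul, sub_zero]
    have h3 := (abs_le.mp (F_Q hk x0)).1
    rw [Q_smul_alpha, ← add_assoc, psi_periodic, h0] at h3
    have := (abs_le.mp hr).2
    linarith
  have e1 : F (Q k) (x0 - (1 : ℝ) • delta k) ≤ r := by
    rw [one_smul]
    have h3 := (abs_le.mp (F_Q hk (x0 - delta k))).2
    rw [Q_smul_alpha, ← add_assoc, psi_periodic, sub_add_cancel, h0] at h3
    have := (abs_le.mp hr).1
    linarith
  have := intermediate_value_Icc' (show (0 : ℝ) ≤ 1 by norm_num) hc.continuousOn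
  obtain ⟨s, hs, hs2⟩ := this ⟨e1, e0⟩
  exact ⟨s, hs, hs2⟩

/-- Density of the rotation orbits. -/
theorem rotation_dense (y y' : ℝ × ℝ) (ε : ℝ) (hε : 0 < ε) :
    ∃ (m p q : ℤ), ‖y + m • alpha - y' - intPt p q‖ < ε := by
  let S : AddSubgroup (ℝ × ℝ) :=
    { carrier := {v | ∃ m p q : ℤ, v = m • alpha + intPt p q}
      add_mem' := by
        rintro v w ⟨m, p, q, rfl⟩ ⟨m', p', q', rfl⟩
        refine ⟨m + m', p + p', q + q', ?_⟩
        rw [add_smul]
        ext
        · simp [intPt]; ring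
        · simp [intPt]; ring
      zero_mem' := ⟨0, 0, 0, by ext <;> simp [intPt]⟩
      neg_mem' := by
        rintro v ⟨m, p, q, rfl⟩
        refine ⟨-m, -p, -q, ?_⟩
        ext
        · simp [intPt]; ring
        · simp [intPt]; ring }
  have hmem : ∀ m p q : ℤ, m • alpha + intPt p q ∈ S := fun m p q => ⟨m, p, q, rfl⟩
  have htop := NilRet.plane_top av bv irrational_av indep_rat S.topologicalClosure
    S.isClosed_topologicalClosure
    (S.le_topologicalClosure (by
      have := hmem 1 0 0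
      convert this using 1
      ext <;> simp [alpha, intPt]))
    (S.le_topologicalClosure (by
      have := hmem 0 2 0
      convert this using 1
      ext <;> simp [intPt]))
    (S.le_topologicalClosure (by
      have := hmem 0 0 1
      convert this using 1
      ext <;> simp [intPt]))
    (y' - y)
  have hcl : y' - y ∈ closure (S : Set (ℝ × ℝ)) := htop
  obtain ⟨v, ⟨m, p, q, rfl⟩, hv⟩ := Metric.mem_closure_iff.mp hcl ε hε
  refine ⟨m, -p, -q, ?_⟩
  rw [dist_comm, dist_eq_norm] at hv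
  have e : y + m • alpha - y' - intPt (-p) (-q) = m • alpha + intPt p q - (y' - y) := by
    ext
    · simp [intPt]; ring
    · simp [intPt]; ring
  rw [e]
  exact hv

/-- Transitivity, on the level of lifts. -/
theorem transitive_lift (y y' : ℝ × ℝ) (t t' ε : ℝ) (hε : 0 < ε) :
    ∃ (x : ℝ × ℝ) (n p q : ℤ), ‖x - y‖ < ε ∧ ‖x + n • alpha - y' - intPt p q‖ < ε ∧
      |t + F n x - t'| < ε := by
  obtain ⟨m, p, q, hm⟩ := rotation_dense y y' (ε / 2) (by linarith)
  obtain ⟨ρ, hρ, hcont⟩ := Metric.continuous_iff.mp (continuous_F m) y ε hε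
  set ρ' := min ρ (ε / 4) with hρ'
  have hρ'0 : 0 < ρ' := lt_min hρ (by linarith)
  set r := t' - t - F m y with hr
  have hl1 : Tendsto (fun k : ℕ => (1 / 2 : ℝ) ^ k + 2 * (4 * eps k)) atTop (𝓝 0) := by
    have h1 := tendsto_pow_atTop_nhds_zero_of_lt_one (r := (1 / 2 : ℝ)) (by norm_num) (by norm_num)
    have h2 := (tendsto_eps.const_mul 4).const_mul 2
    have h3 := h1.add h2
    simpa using h3
  have hl2 : Tendsto (fun k : ℕ => (k : ℝ) / 5 - 1) atTop atTop := by
    apply tendsto_atTop_add_const_right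
    exact tendsto_natCast_atTop_atTop.atTop_div_const (by norm_num)
  obtain ⟨k, hk20, hk1, hk2⟩ := ((eventually_ge_atTop 20).and
    ((hl1.eventually (gt_mem_nhds hρ'0)).and (hl2.eventually_ge_atTop |r|))).exists
  obtain ⟨x0, a, b, ha, hb, hx0⟩ := exists_lattice hk20 y
  obtain ⟨s, hs, hs2⟩ := exists_value hk20 x0 a b ha hb r hk2
  have hδ := delta_small (k := k) (by omega)
  have hek := eps_pos k
  set x := x0 - s • delta k with hx
  have hsδ : ‖s • delta k‖ ≤ 4 * eps k := by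
    rw [norm_smul, Real.norm_of_nonneg hs.1]
    calc s * ‖delta k‖ ≤ 1 * ‖delta k‖ := mul_le_mul_of_nonneg_right hs.2 (norm_nonneg _)
      _ ≤ _ := by linarith
  have hxy : ‖x - y‖ < ρ' := by
    have e : x - y = (x0 - y) - s • delta k := by rw [hx]; abel
    rw [e]
    calc ‖(x0 - y) - s • delta k‖ ≤ ‖x0 - y‖ + ‖s • delta k‖ := norm_sub_le _ _
      _ ≤ (1 / 2) ^ k + 4 * eps k := add_le_add hx0 hsδ
      _ < ρ' := by linarith
  have hxδ : ‖x + delta k - y‖ < ρ' := by
    have e : x + delta k - y = (x0 - y) - s • delta k + delta k := by rw [hx]; abel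
    rw [e]
    calc ‖(x0 - y) - s • delta k + delta k‖ ≤ ‖(x0 - y) - s • delta k‖ + ‖delta k‖ := norm_add_le _ _
      _ ≤ (‖x0 - y‖ + ‖s • delta k‖) + ‖delta k‖ := by
          have := norm_sub_le (x0 - y) (s • delta k)
          linarith
      _ ≤ ((1 / 2) ^ k + 4 * eps k) + 4 * eps k := add_le_add (add_le_add hx0 hsδ) hδ
      _ < ρ' := by linarith
  have hρε : ρ' ≤ ε / 4 := min_le_right _ _
  have hρρ : ρ' ≤ ρ := min_le_left _ _
  refine ⟨x, Q k + m, A k + p, B k + q, by linarith, ?_, ?_⟩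
  · have e : x + (Q k + m) • alpha - y' - intPt (A k + p) (B k + q) =
        (x + delta k - y) + (y + m • alpha - y' - intPt p q) := by
      rw [add_smul, Q_smul_alpha]
      ext
      · simp [intPt]; ring
      · simp [intPt]; ring
    rw [e]
    have := norm_add_le (x + delta k - y) (y + m • alpha - y' - intPt p q)
    linarith
  · rw [F_add, hs2, Q_smul_alpha, ← add_assoc x, F_periodic]
    have h1 := hcont (x + delta k) (by rw [dist_eq_norm]; linarith)
    rw [Real.dist_eq] at h1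
    have e : t + (r + F m (x + delta k)) - t' = F m (x + delta k) - F m y := by rw [hr]; ring
    rw [e]
    exact h1

end Pool.Agent.R239.Besi
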