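import Pool.Agent.R239.Besi.Alpha
import Pool.Agent.R239.Besi.Bump

/-!
The functions `psi_k`, their increments, and the size estimates.
-/

open Set Topology Filter Real

namespace Pool.Agent.R239.Besi

/-- The linear forms. -/
noncomputable def Ls (k : ℕ) : ℝ × ℝ →L[ℝ] ℝ :=
  (sa k : ℝ) • ContinuousLinearMap.fst ℝ ℝ ℝ + (sb k : ℝ) • ContinuousLinearMap.snd ℝ ℝ ℝ

noncomputable def Ll (k : ℕ) : ℝ × ℝ →L[ℝ] ℝ :=
  (la k : ℝ) • ContinuousLinearMap.fst ℝ ℝ ℝ + (lb k : ℝ) • ContinuousLinearMap.snd ℝ ℝ ℝ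

lemma Ls_apply (k : ℕ) (x : ℝ × ℝ) : Ls k x = sa k * x.1 + sb k * x.2 := by simp [Ls]
lemma Ll_apply (k : ℕ) (x : ℝ × ℝ) : Ll k x = la k * x.1 + lb k * x.2 := by simp [Ll]

/-- The rotation vector. -/
noncomputable def alpha : ℝ × ℝ := (av, bv)

lemma Ls_alpha (k : ℕ) : Ls k alpha = xi k + ((-sp k : ℤ) : ℝ) := by
  rw [Ls_apply]; simp only [alpha, xi]; push_cast; ring
lemma Ll_alpha (k : ℕ) : Ll k alpha = eta k + ((-lp k : ℤ) : ℝ) := by
  rw [Ll_apply]; simp only [alpha, eta]; push_cast; ring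

/-- The building blocks. -/
noncomputable def psi (k : ℕ) (x : ℝ × ℝ) : ℝ := k * g (N k) (Ll k x) (Ls k x)

lemma psi_nonneg (k : ℕ) (x : ℝ × ℝ) : 0 ≤ psi k x :=
  mul_nonneg (Nat.cast_nonneg k) (g_nonneg _ _ _)

lemma psi_zero (k : ℕ) : psi k 0 = 0 := by
  unfold psi; simp [g_zero]

lemma psi_neg (k : ℕ) (x : ℝ × ℝ) : psi k (-x) = psi k x := by
  unfold psi
  rw [map_neg, map_neg, g_neg]

lemma psi_add (k : ℕ) (x v : ℝ × ℝ) (u w : ℝ) (m m' : ℤ) (hu : Ll k v = u + m)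
    (hw : Ls k v = w + m') : psi k (x + v) = k * g (N k) (Ll k x + u) (Ls k x + w) := by
  unfold psi
  rw [map_add, map_add, hu, hw, ← add_assoc, ← add_assoc, g_add_int]

/-- Integer points. -/
def intPt (p q : ℤ) : ℝ × ℝ := (p, q)

lemma Ls_intPt (k : ℕ) (p q : ℤ) : Ls k (intPt p q) = ((sa k * p + sb k * q : ℤ) : ℝ) := by
  rw [Ls_apply]; simp [intPt]
lemma Ll_intPt (k : ℕ) (p q : ℤ) : Ll k (intPt p q) = ((la k * p + lb k * q : ℤ) : ℝ) := by
  rw [Ll_apply]; simp [intPt]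

lemma psi_periodic (k : ℕ) (x : ℝ × ℝ) (p q : ℤ) : psi k (x + intPt p q) = psi k x := by
  rw [psi_add k x (intPt p q) 0 0 _ _ (by rw [Ll_intPt]; rw [zero_add]) (by rw [Ls_intPt]; rw [zero_add])]
  simp [psi]

lemma psi_shift (k : ℕ) (x v : ℝ × ℝ) (u w : ℝ) (m m' : ℤ) (hu : Ll k v = u + m)
    (hw : Ls k v = w + m') : |psi k (x + v) - psi k x| ≤ k * (π * N k * (|u| + |w|)) := by
  rw [psi_add k x v u w m m' hu hw]
  unfold psi
  rw [← mul_sub, abs_mul, abs_of_nonneg (Nat.cast_nonneg k)]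
  apply mul_le_mul_of_nonneg_left _ (Nat.cast_nonneg k)
  have := g_lip (N_posR k).le (Ll k x + u) (Ls k x + w) (Ll k x) (Ls k x)
  simpa using this

lemma Ls_zsmul_alpha (k : ℕ) (n : ℤ) : Ls k (n • alpha) = n * xi k + ((-(n * sp k) : ℤ) : ℝ) := by
  rw [map_zsmul, Ls_alpha, zsmul_eq_mul]; push_cast; ring
lemma Ll_zsmul_alpha (k : ℕ) (n : ℤ) : Ll k (n • alpha) = n * eta k + ((-(n * lp k) : ℤ) : ℝ) := by
  rw [map_zsmul, Ll_alpha, zsmul_eq_mul]; push_cast; ring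

/-- Sum of the two small divisors. -/
lemma eta_add_xi_le {k : ℕ} (hk : 1 ≤ k) : eta k + xi k ≤ 64 / (N k * Q k) := by
  have h1 := eta_le hk
  have h2 := xi_upper hk
  have h3 := xi_pos hk
  have hN := N_geR k
  have hQ := Q_pos hk
  have hQ1 := Q_pos (k := k + 1) (by omega)
  have h4 := Q_succ_ge hk
  calc eta k + xi k ≤ 2 * N k * xi k := by nlinarith
    _ ≤ 2 * N k * (2 / Q (k + 1)) := by gcongr
    _ ≤ 2 * N k * (2 / ((N k : ℝ) ^ 2 * Q k / 16)) := by gcongr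
    _ = 64 / (N k * Q k) := by field_simp; ring

lemma psi_shift_zsmul {k : ℕ} (hk : 1 ≤ k) (n : ℤ) (x : ℝ × ℝ) :
    |psi k (x + n • alpha) - psi k x| ≤ |(n : ℝ)| * (256 * k / Q k) := by
  refine (psi_shift k x (n • alpha) (n * eta k) (n * xi k) _ _ (Ll_zsmul_alpha k n)
    (Ls_zsmul_alpha k n)).trans ?_
  have h1 := eta_add_xi_le hk
  have h2 := eta_nonneg hk
  have h3 := xi_pos hk
  have hN := N_posR k
  have hQ := Q_pos hk
  rw [abs_mul, abs_mul, abs_of_pos h2, abs_of_pos h3]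
  have hpi : π ≤ 4 := Real.pi_le_four
  have hpi0 := Real.pi_pos
  calc (k : ℝ) * (π * N k * (|(n : ℝ)| * eta k + |(n : ℝ)| * xi k))
      = |(n : ℝ)| * (k * (π * N k * (eta k + xi k))) := by ring
    _ ≤ |(n : ℝ)| * (k * (4 * N k * (64 / (N k * Q k)))) := by gcongr
    _ = |(n : ℝ)| * (256 * k / Q k) := by field_simp; ring

/-- The products dominate. -/
lemma P_big {k : ℕ} (hk : 20 ≤ k) :
    10240 * k * 64 ^ k * (N k : ℝ) ^ 2 * N (k - 1) ≤ P k := by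
  obtain ⟨j, rfl⟩ : ∃ j, k = j + 4 := ⟨k - 4, by omega⟩
  have hj : 16 ≤ j := by omega
  have e4 : P (j + 4) = P j * N j * N (j + 1) * N (j + 2) * N (j + 3) := by
    rw [P_succ (k := j + 3) (by omega), P_succ (k := j + 2) (by omega),
      P_succ (k := j + 1) (by omega), P_succ (k := j) (by omega)]
  rw [e4, show j + 4 - 1 = j + 3 from rfl]
  have hP : 1 ≤ P j := one_le_P j
  have h3 := N_posR (j + 3)
  apply mul_le_mul_of_nonneg_right _ h3.le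
  have main : 10240 * ((j + 4 : ℕ) : ℝ) * 64 ^ (j + 4) * (N (j + 4) : ℝ) ^ 2 ≤
      N j * N (j + 1) * N (j + 2) := by
    have hk2 : ((j + 4 : ℕ) : ℝ) ≤ 4 ^ (j + 4) := by
      have : (j + 4) < 4 ^ (j + 4) := Nat.lt_pow_self (by norm_num)
      exact_mod_cast this.le
    calc 10240 * ((j + 4 : ℕ) : ℝ) * 64 ^ (j + 4) * (N (j + 4) : ℝ) ^ 2
        ≤ 4 ^ 7 * 4 ^ (j + 4) * 4 ^ (3 * (j + 4)) * (4 ^ ((j + 4 + 2) ^ 2)) ^ 2 := by
          rw [N_eqR]
          have e64 : (64 : ℝ) ^ (j + 4) = 4 ^ (3 * (j + 4)) := by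
            rw [pow_mul]; norm_num
          rw [e64]
          gcongr
          norm_num
      _ = 4 ^ (7 + (j + 4) + 3 * (j + 4) + (j + 4 + 2) ^ 2 * 2) := by
          rw [← pow_mul, ← pow_add, ← pow_add, ← pow_add]
      _ ≤ 4 ^ ((j + 2) ^ 2 + (j + 1 + 2) ^ 2 + (j + 2 + 2) ^ 2) := by
          apply pow_le_pow_right₀ (by norm_num)
          nlinarith
      _ = N j * N (j + 1) * N (j + 2) := by
          rw [N_eqR, N_eqR, N_eqR, pow_add, pow_add]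
  calc 10240 * ((j + 4 : ℕ) : ℝ) * 64 ^ (j + 4) * (N (j + 4) : ℝ) ^ 2
      ≤ N j * N (j + 1) * N (j + 2) := main
    _ ≤ P j * N j * N (j + 1) * N (j + 2) := by
        have := mul_pos (mul_pos (N_posR j) (N_posR (j + 1))) (N_posR (j + 2))
        nlinarith

lemma P_big' {k : ℕ} (hk : 20 ≤ k) : 256 * k * 64 ^ k ≤ P k := by
  refine le_trans ?_ (P_big hk)
  have hN := N_geR k
  have hN1 := N_geR (k - 1)
  have h1 : (0 : ℝ) ≤ k * 64 ^ k := by positivity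
  calc 256 * (k : ℝ) * 64 ^ k = 256 * (k * 64 ^ k) := by ring
    _ ≤ 10240 * (k * 64 ^ k) * 1 * 1 := by nlinarith
    _ ≤ 10240 * (k * 64 ^ k) * (N k : ℝ) ^ 2 * N (k - 1) := by
        gcongr
        · nlinarith
        · linarith
    _ = _ := by ring

lemma Q_big {k : ℕ} (hk : 20 ≤ k) : 256 * k * 2 ^ k ≤ (Q k : ℝ) := by
  refine le_trans ?_ (Q_lower (by omega : 1 ≤ k))
  have h := P_big' hk
  have hk1 : (1 : ℝ) ≤ k := by exact_mod_cast (by omega : 1 ≤ k)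
  rw [le_div_iff₀ (by positivity)]
  have h2 : (32 : ℝ) ^ k ≤ 64 ^ k := pow_le_pow_left₀ (by norm_num) (by norm_num) k
  have h3 : (256 : ℝ) * k * 2 ^ k * 16 ^ k = 256 * k * 32 ^ k := by
    rw [mul_assoc, ← mul_pow]; norm_num
  rw [h3]
  have h4 : (1 : ℝ) ≤ P k := one_le_P k
  calc 256 * (k : ℝ) * 32 ^ k ≤ 256 * k * 64 ^ k := by gcongr
    _ ≤ P k := h
    _ ≤ P k ^ 2 := by nlinarith

lemma v0_le {k : ℕ} (hk : 20 ≤ k) : 256 * k / (Q k : ℝ) ≤ (1 / 2) ^ k := by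
  have hQ := Q_pos (by omega : 1 ≤ k)
  rw [div_le_iff₀ hQ, one_div, inv_pow]
  have h := Q_big hk
  rw [← div_eq_inv_mul, le_div_iff₀ (by positivity)]
  exact h

lemma norm_Ls (k : ℕ) : ‖Ls k‖ ≤ 2 * (2 ^ k * P k) := by
  apply ContinuousLinearMap.opNorm_le_bound _ (by have := P_pos k; positivity)
  intro x
  rw [Ls_apply, Real.norm_eq_abs]
  have h1 := sa_bound k
  have h2 := sb_bound k
  have hx1 : |x.1| ≤ ‖x‖ := norm_fst_le x
  have hx2 : |x.2| ≤ ‖x‖ := norm_snd_le x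
  have hP : 0 < 2 ^ k * P k := by have := P_pos k; positivity
  calc |(sa k : ℝ) * x.1 + sb k * x.2| ≤ |(sa k : ℝ)| * |x.1| + |(sb k : ℝ)| * |x.2| := by
        rw [← abs_mul, ← abs_mul]; exact abs_add_le _ _
    _ ≤ 2 ^ k * P k * ‖x‖ + 2 ^ k * P k * ‖x‖ := by gcongr
    _ = _ := by ring

lemma norm_Ll {k : ℕ} (hk : 2 ≤ k) : ‖Ll k‖ ≤ 2 * (2 ^ k * N (k - 1) * P k) := by
  obtain ⟨j, rfl⟩ : ∃ j, k = j + 2 := ⟨k - 2, by omega⟩
  rw [show j + 2 - 1 = j + 1 from rfl]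
  have hP := P_pos (j + 2)
  have hN := N_posR (j + 1)
  apply ContinuousLinearMap.opNorm_le_bound _ (by positivity)
  intro x
  rw [Ll_apply, Real.norm_eq_abs]
  have h1 := la_bound j
  have h2 := lb_bound j
  have hx1 : |x.1| ≤ ‖x‖ := norm_fst_le x
  have hx2 : |x.2| ≤ ‖x‖ := norm_snd_le x
  calc |(la (j + 2) : ℝ) * x.1 + lb (j + 2) * x.2|
      ≤ |(la (j + 2) : ℝ)| * |x.1| + |(lb (j + 2) : ℝ)| * |x.2| := by
        rw [← abs_mul, ← abs_mul]; exact abs_add_le _ _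
    _ ≤ 2 ^ (j + 2) * N (j + 1) * P (j + 2) * ‖x‖ + 2 ^ (j + 2) * N (j + 1) * P (j + 2) * ‖x‖ := by
        gcongr
    _ = _ := by ring

/-- The increments. -/
noncomputable def phk (k : ℕ) (x : ℝ × ℝ) : ℝ := psi k (x + alpha) - psi k x

lemma contDiff_psi (k : ℕ) {m : WithTop ℕ∞} : ContDiff ℝ m (psi k) :=
  contDiff_const.mul (contDiff_g (N k) (Ll k) (Ls k))

lemma contDiff_phk (k : ℕ) {m : WithTop ℕ∞} : ContDiff ℝ m (phk k) :=
  ((contDiff_psi k).comp (contDiff_id.add contDiff_const)).sub (contDiff_psi k)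

lemma phk_bound {k : ℕ} (hk : 20 ≤ k) (x : ℝ × ℝ) : |phk k x| ≤ (1 / 2) ^ k := by
  have h := psi_shift_zsmul (k := k) (by omega) 1 x
  rw [one_zsmul] at h
  simp only [Int.cast_one, abs_one, one_mul] at h
  exact h.trans (v0_le hk)

lemma hasFDerivAt_psi (k : ℕ) (x : ℝ × ℝ) : HasFDerivAt (psi k)
    ((k : ℝ) • (g1 (N k) (Ll k x) (Ls k x) • Ll k + g1 (N k) (Ls k x) (Ll k x) • Ls k)) x :=
  (hasFDerivAt_g (N k) (Ll k) (Ls k) x).const_mul (k : ℝ)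

lemma fderiv_phk_bound {k : ℕ} (hk : 20 ≤ k) (x : ℝ × ℝ) :
    ‖fderiv ℝ (phk k) x‖ ≤ (1 / 2) ^ k := by
  have hk1 : 1 ≤ k := by omega
  have e1 : HasFDerivAt (fun x => psi k (x + alpha))
      ((k : ℝ) • (g1 (N k) (Ll k (x + alpha)) (Ls k (x + alpha)) • Ll k
        + g1 (N k) (Ls k (x + alpha)) (Ll k (x + alpha)) • Ls k)) x :=
    (hasFDerivAt_comp_add_right alpha).mpr (hasFDerivAt_psi k (x + alpha))
  have e2 : fderiv ℝ (phk k) x = (k : ℝ) •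
      ((g1 (N k) (Ll k (x + alpha)) (Ls k (x + alpha)) - g1 (N k) (Ll k x) (Ls k x)) • Ll k
        + (g1 (N k) (Ls k (x + alpha)) (Ll k (x + alpha)) - g1 (N k) (Ls k x) (Ll k x)) • Ls k) := by
    have := (e1.sub (hasFDerivAt_psi k x)).fderiv
    have h2 : fderiv ℝ (phk k) x = fderiv ℝ ((fun x => psi k (x + alpha)) - psi k) x := rfl
    rw [h2, this]
    rw [← smul_sub]
    congr 1
    module
  have hη := eta_nonneg hk1
  have hξ := xi_pos hk1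
  have hN := N_geR k
  have hN1 : (1 : ℝ) ≤ N k := by linarith
  have hN0 : (0 : ℝ) < N k := by linarith
  have c1 : |g1 (N k) (Ll k (x + alpha)) (Ls k (x + alpha)) - g1 (N k) (Ll k x) (Ls k x)| ≤
      4 * π ^ 2 * (N k : ℝ) ^ 3 * (eta k + xi k) := by
    rw [map_add, map_add, Ll_alpha, Ls_alpha, ← add_assoc, ← add_assoc, g1_add_int]
    refine (g1_lip hN1 _ _ _ _).trans (le_of_eq ?_)
    rw [add_sub_cancel_left, add_sub_cancel_left, abs_of_pos hη, abs_of_pos hξ]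
  have c2 : |g1 (N k) (Ls k (x + alpha)) (Ll k (x + alpha)) - g1 (N k) (Ls k x) (Ll k x)| ≤
      4 * π ^ 2 * (N k : ℝ) ^ 3 * (eta k + xi k) := by
    rw [map_add, map_add, Ll_alpha, Ls_alpha, ← add_assoc, ← add_assoc, g1_add_int]
    refine (g1_lip hN1 _ _ _ _).trans (le_of_eq ?_)
    rw [add_sub_cancel_left, add_sub_cancel_left, abs_of_pos hη, abs_of_pos hξ]
    ring
  have hpi : 4 * π ^ 2 ≤ 40 := by
    have := Real.pi_lt_d2
    nlinarith [Real.pi_pos]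
  have hex := eta_add_xi_le hk1
  have hQ := Q_pos hk1
  have c3 : 4 * π ^ 2 * (N k : ℝ) ^ 3 * (eta k + xi k) ≤ 2560 * (N k : ℝ) ^ 2 / Q k := by
    calc 4 * π ^ 2 * (N k : ℝ) ^ 3 * (eta k + xi k)
        ≤ 40 * (N k : ℝ) ^ 3 * (64 / (N k * Q k)) := by gcongr
      _ = 2560 * (N k : ℝ) ^ 2 / Q k := by field_simp; ring
  have hLl := norm_Ll (k := k) (by omega)
  have hLs := norm_Ls k
  have hP := P_pos k
  have hNm := N_geR (k - 1)
  have hLs' : ‖Ls k‖ ≤ 2 * (2 ^ k * N (k - 1) * P k) := by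
    refine hLs.trans ?_
    have : 0 < 2 ^ k * P k := by positivity
    nlinarith
  rw [e2, norm_smul, Real.norm_of_nonneg (Nat.cast_nonneg k)]
  calc (k : ℝ) * ‖(g1 (N k) (Ll k (x + alpha)) (Ls k (x + alpha)) - g1 (N k) (Ll k x) (Ls k x)) • Ll k
        + (g1 (N k) (Ls k (x + alpha)) (Ll k (x + alpha)) - g1 (N k) (Ls k x) (Ll k x)) • Ls k‖
      ≤ k * ((2560 * (N k : ℝ) ^ 2 / Q k) * (2 * (2 ^ k * N (k - 1) * P k))
          + (2560 * (N k : ℝ) ^ 2 / Q k) * (2 * (2 ^ k * N (k - 1) * P k))) := by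
        apply mul_le_mul_of_nonneg_left _ (Nat.cast_nonneg k)
        refine (norm_add_le _ _).trans ?_
        rw [norm_smul, norm_smul, Real.norm_eq_abs, Real.norm_eq_abs]
        gcongr
        · exact c1.trans c3
        · exact c2.trans c3
    _ = 10240 * k * 2 ^ k * (N k : ℝ) ^ 2 * N (k - 1) * P k / Q k := by ring
    _ ≤ (1 / 2) ^ k := by
        rw [div_le_iff₀ hQ, one_div, inv_pow, ← div_eq_inv_mul, le_div_iff₀ (by positivity)]
        refine le_trans ?_ (Q_lower hk1)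
        rw [le_div_iff₀ (by positivity)]
        have hb := P_big hk
        have hb2 := mul_le_mul_of_nonneg_right hb hP.le
        have e : 10240 * (k : ℝ) * 2 ^ k * (N k : ℝ) ^ 2 * N (k - 1) * P k * 2 ^ k * 16 ^ k =
            10240 * k * (2 ^ k * 2 ^ k * 16 ^ k) * (N k : ℝ) ^ 2 * N (k - 1) * P k := by ring
        rw [e, ← mul_pow, ← mul_pow]
        norm_num
        nlinarith

end Pool.Agent.R239.Besi
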