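import Mathlib

/-!
The integer vectors and the rotation vector used for the `C^1` Besicovitch cylindrical
transformation.
-/

open Set Topology Filter

namespace Pool.Agent.R239.Besi

/-- The basic growth sequence. -/
@[irreducible] def N (k : ℕ) : ℕ := 4 ^ ((k + 2) ^ 2)

/-- One eighth of the square of `N`. -/
@[irreducible] def yy (k : ℕ) : ℕ := 2 ^ (4 * (k + 2) ^ 2 - 3)

lemma N_eq (k : ℕ) : N k = 4 ^ ((k + 2) ^ 2) := by unfold N; rfl

lemma eight_yy (k : ℕ) : 8 * yy k = N k ^ 2 := by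
  unfold yy N
  have h0 : 2 ^ 2 ≤ (k + 2) ^ 2 := Nat.pow_le_pow_left (by omega) 2
  have h : 3 ≤ 4 * (k + 2) ^ 2 := by omega
  rw [← pow_mul, show (4 : ℕ) = 2 ^ 2 by norm_num, ← pow_mul, show (8 : ℕ) = 2 ^ 3 by norm_num,
    ← pow_add]
  congr 1
  ring_nf at h ⊢
  omega

lemma N_ge (k : ℕ) : 256 ≤ N k := by
  rw [N_eq]
  calc 256 = 4 ^ 4 := by norm_num
    _ ≤ 4 ^ ((k + 2) ^ 2) := Nat.pow_le_pow_right (by norm_num)
        (Nat.pow_le_pow_left (show 2 ≤ k + 2 by omega) 2)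

lemma N_mono {j k : ℕ} (h : j ≤ k) : N j ≤ N k := by
  rw [N_eq, N_eq]
  exact Nat.pow_le_pow_right (by norm_num) (Nat.pow_le_pow_left (by omega) 2)

lemma N_geR (k : ℕ) : (256 : ℝ) ≤ N k := by exact_mod_cast N_ge k
lemma N_posR (k : ℕ) : (0 : ℝ) < N k := by linarith [N_geR k]
lemma N_monoR {j k : ℕ} (h : j ≤ k) : (N j : ℝ) ≤ N k := by exact_mod_cast N_mono h
lemma N_eqR (k : ℕ) : (N k : ℝ) = 4 ^ ((k + 2) ^ 2) := by rw [N_eq]; push_cast; rfl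

lemma yyR (k : ℕ) : (yy k : ℝ) = (N k : ℝ) ^ 2 / 8 := by
  have h := eight_yy k
  have h2 : (8 : ℝ) * yy k = (N k : ℝ) ^ 2 := by exact_mod_cast h
  linarith

lemma yy_ge (k : ℕ) : 2 * N k ≤ yy k := by
  have h := eight_yy k
  have h2 := N_ge k
  nlinarith

/-- The three-term recursion. -/
def rec3 (u0 u1 u2 : ℤ) : ℕ → ℤ
  | 0 => u0
  | 1 => u1
  | 2 => u2
  | (k + 3) => N (k + 2) * rec3 u0 u1 u2 (k + 2) - yy (k + 1) * rec3 u0 u1 u2 (k + 1)
      + rec3 u0 u1 u2 k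

/-- First coordinates. -/
def sa : ℕ → ℤ := rec3 0 1 0
/-- Second coordinates. -/
def sb : ℕ → ℤ := rec3 0 0 1
/-- Third coordinates. -/
def sp : ℕ → ℤ := rec3 1 0 0

lemma sa_rec (k : ℕ) : sa (k + 3) = N (k + 2) * sa (k + 2) - yy (k + 1) * sa (k + 1) + sa k := rfl
lemma sb_rec (k : ℕ) : sb (k + 3) = N (k + 2) * sb (k + 2) - yy (k + 1) * sb (k + 1) + sb k := rfl
lemma sp_rec (k : ℕ) : sp (k + 3) = N (k + 2) * sp (k + 2) - yy (k + 1) * sp (k + 1) + sp k := rfl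

/-- Third coordinate of the cross product. -/
def Q (k : ℕ) : ℤ := sa k * sb (k + 1) - sb k * sa (k + 1)
/-- First coordinate of the cross product. -/
def A (k : ℕ) : ℤ := sb k * sp (k + 1) - sp k * sb (k + 1)
/-- Second coordinate of the cross product. -/
def B (k : ℕ) : ℤ := sp k * sa (k + 1) - sa k * sp (k + 1)

lemma det_one (k : ℕ) : A k * sa (k + 2) + B k * sb (k + 2) + Q k * sp (k + 2) = 1 := by
  induction k with
  | zero => simp [A, B, Q, sa, sb, sp, rec3]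
  | succ k ih =>
    rw [show k + 1 + 2 = k + 3 from rfl, sa_rec, sb_rec, sp_rec]
    rw [← ih]
    simp only [A, B, Q]
    rw [show k + 1 + 1 = k + 2 from rfl]
    ring

lemma det_one' (k : ℕ) : sa k * A (k + 1) + sb k * B (k + 1) + sp k * Q (k + 1) = 1 := by
  rw [← det_one k]
  simp only [A, B, Q]
  rw [show k + 1 + 1 = k + 2 from rfl]
  ring

lemma orth (k : ℕ) : sa k * A k + sb k * B k + sp k * Q k = 0 := by
  simp only [A, B, Q]; ring

lemma orth' (k : ℕ) : sa (k + 1) * A k + sb (k + 1) * B k + sp (k + 1) * Q k = 0 := by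
  simp only [A, B, Q]; ring

lemma A_diff (k : ℕ) : Q k * A (k + 1) - Q (k + 1) * A k = sb (k + 1) := by
  have h := det_one k
  simp only [A, B, Q] at *
  rw [show k + 1 + 1 = k + 2 from rfl] at *
  linear_combination sb (k + 1) * h

lemma B_diff (k : ℕ) : Q k * B (k + 1) - Q (k + 1) * B k = -sa (k + 1) := by
  have h := det_one k
  simp only [A, B, Q] at *
  rw [show k + 1 + 1 = k + 2 from rfl] at *
  linear_combination -sa (k + 1) * h

lemma Q_rec (k : ℕ) : Q (k + 3) = yy (k + 2) * Q (k + 2) - N (k + 2) * Q (k + 1) + Q k := by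
  simp only [Q]
  rw [show k + 3 + 1 = (k + 1) + 3 from rfl, sa_rec (k + 1), sb_rec (k + 1),
    show k + 1 + 2 = k + 3 from rfl, show k + 1 + 1 = k + 2 from rfl, sa_rec k, sb_rec k]
  ring_nf

lemma A_rec (k : ℕ) : A (k + 3) = yy (k + 2) * A (k + 2) - N (k + 2) * A (k + 1) + A k := by
  simp only [A]
  rw [show k + 3 + 1 = (k + 1) + 3 from rfl, sp_rec (k + 1), sb_rec (k + 1),
    show k + 1 + 2 = k + 3 from rfl, show k + 1 + 1 = k + 2 from rfl, sp_rec k, sb_rec k]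
  ring_nf

lemma B_rec (k : ℕ) : B (k + 3) = yy (k + 2) * B (k + 2) - N (k + 2) * B (k + 1) + B k := by
  simp only [B]
  rw [show k + 3 + 1 = (k + 1) + 3 from rfl, sa_rec (k + 1), sp_rec (k + 1),
    show k + 1 + 2 = k + 3 from rfl, show k + 1 + 1 = k + 2 from rfl, sa_rec k, sp_rec k]
  ring_nf

lemma Q_zero : Q 0 = 0 := by simp [Q, sa, sb, rec3]
lemma Q_one : Q 1 = 1 := by simp [Q, sa, sb, rec3]
lemma Q_two : Q 2 = yy 1 := by simp [Q, sa, sb, rec3]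

lemma Q_bounds (j : ℕ) : 0 ≤ Q j ∧ Q j ≤ Q (j + 1) ∧ 0 < Q (j + 1) ∧
    yy (j + 1) * Q (j + 1) ≤ 2 * Q (j + 2) ∧ Q (j + 2) ≤ yy (j + 1) * Q (j + 1) := by
  induction j with
  | zero =>
    rw [zero_add, zero_add, Q_zero, Q_one, Q_two]
    have h1 : (0 : ℤ) ≤ yy 1 := by positivity
    refine ⟨le_rfl, by norm_num, by norm_num, by linarith, by linarith⟩
  | succ j ih =>
    obtain ⟨h0, h1, h2, h3, h4⟩ := ih
    have hN : (256 : ℤ) ≤ N (j + 2) := by exact_mod_cast N_ge (j + 2)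
    have hy2 : 2 * (N (j + 2) : ℤ) ≤ yy (j + 2) := by exact_mod_cast yy_ge (j + 2)
    have hN1 : (256 : ℤ) ≤ N (j + 1) := by exact_mod_cast N_ge (j + 1)
    have hy1 : 2 * (N (j + 1) : ℤ) ≤ yy (j + 1) := by exact_mod_cast yy_ge (j + 1)
    have h5 : Q (j + 1) ≤ Q (j + 2) := by nlinarith
    have h6 : 0 < Q (j + 2) := by linarith
    have h7 := Q_rec j
    refine ⟨h2.le, h5, h6, ?_, ?_⟩
    · show yy (j + 2) * Q (j + 2) ≤ 2 * Q (j + 3)
      rw [h7]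
      have h8 : 2 * (N (j + 2) : ℤ) * Q (j + 1) ≤ yy (j + 2) * Q (j + 2) := by
        have := mul_le_mul hy2 h5 h2.le (by linarith : (0 : ℤ) ≤ yy (j + 2))
        linarith
      linarith
    · show Q (j + 3) ≤ yy (j + 2) * Q (j + 2)
      rw [h7]
      have : Q j ≤ N (j + 2) * Q (j + 1) := by nlinarith
      linarith

lemma Q_pos {k : ℕ} (hk : 1 ≤ k) : (0 : ℝ) < Q k := by
  obtain ⟨j, rfl⟩ : ∃ j, k = j + 1 := ⟨k - 1, by omega⟩
  exact_mod_cast (Q_bounds j).2.2.1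

lemma Q_le_succ (k : ℕ) : (Q k : ℝ) ≤ Q (k + 1) := by exact_mod_cast (Q_bounds k).2.1

lemma Q_mono {j k : ℕ} (h : j ≤ k) : (Q j : ℝ) ≤ Q k :=
  monotone_nat_of_le_succ (f := fun k => (Q k : ℝ)) Q_le_succ h

lemma Q_succ_ge {k : ℕ} (hk : 1 ≤ k) : (N k : ℝ) ^ 2 * Q k / 16 ≤ Q (k + 1) := by
  obtain ⟨j, rfl⟩ : ∃ j, k = j + 1 := ⟨k - 1, by omega⟩
  have h := (Q_bounds j).2.2.2.1
  have h2 : (yy (j + 1) : ℝ) * Q (j + 1) ≤ 2 * Q (j + 2) := by exact_mod_cast h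
  rw [yyR] at h2
  show (N (j + 1) : ℝ) ^ 2 * Q (j + 1) / 16 ≤ Q (j + 2)
  linarith

lemma Q_succ_le {k : ℕ} (hk : 1 ≤ k) : (Q (k + 1) : ℝ) ≤ (N k : ℝ) ^ 2 * Q k / 8 := by
  obtain ⟨j, rfl⟩ : ∃ j, k = j + 1 := ⟨k - 1, by omega⟩
  have h := (Q_bounds j).2.2.2.2
  have h2 : (Q (j + 2) : ℝ) ≤ (yy (j + 1) : ℝ) * Q (j + 1) := by exact_mod_cast h
  rw [yyR] at h2
  show (Q (j + 2) : ℝ) ≤ (N (j + 1) : ℝ) ^ 2 * Q (j + 1) / 8
  linarith

/-- The products of the `N j`, `1 <= j < k`. -/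
noncomputable def P (k : ℕ) : ℝ := ∏ j ∈ Finset.Ico 1 k, (N j : ℝ)

lemma P_zero : P 0 = 1 := by simp [P]
lemma P_one : P 1 = 1 := by simp [P]
lemma P_succ {k : ℕ} (hk : 1 ≤ k) : P (k + 1) = P k * N k := by
  unfold P
  exact Finset.prod_Ico_succ_top hk _

lemma P_pos (k : ℕ) : 0 < P k := Finset.prod_pos fun j _ => N_posR j

lemma P_le_succ (k : ℕ) : P k ≤ P (k + 1) := by
  rcases Nat.eq_zero_or_pos k with rfl | hk
  · rw [P_zero, zero_add, P_one]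
  · rw [P_succ hk]
    exact le_mul_of_one_le_right (P_pos k).le (by linarith [N_geR k])

lemma P_mono {j k : ℕ} (h : j ≤ k) : P j ≤ P k := monotone_nat_of_le_succ P_le_succ h

lemma one_le_P (k : ℕ) : 1 ≤ P k := by
  rw [← P_zero]; exact P_mono (Nat.zero_le k)

/-- Size of the horizontal part. -/
lemma s_bound_aux (u0 u1 u2 : ℤ) (k : ℕ) (h0 : |(u0 : ℝ)| ≤ 1) (h1 : |(u1 : ℝ)| ≤ 2)
    (h2 : |(u2 : ℝ)| ≤ 4) :
    |(rec3 u0 u1 u2 k : ℝ)| ≤ 2 ^ k * P k ∧ |(rec3 u0 u1 u2 (k + 1) : ℝ)| ≤ 2 ^ (k + 1) * P (k + 1) ∧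
    |(rec3 u0 u1 u2 (k + 2) : ℝ)| ≤ 2 ^ (k + 2) * P (k + 2) := by
  induction k with
  | zero =>
    refine ⟨?_, ?_, ?_⟩
    · rw [P_zero]; simpa [rec3] using h0
    · rw [zero_add, P_one]; simpa [rec3] using h1
    · have : 1 ≤ P 2 := one_le_P 2
      rw [zero_add]
      have h3 : |(rec3 u0 u1 u2 2 : ℝ)| ≤ 4 := by simpa [rec3] using h2
      nlinarith
  | succ k ih =>
    obtain ⟨i0, i1, i2⟩ := ih
    refine ⟨i1, i2, ?_⟩
    have hrec : rec3 u0 u1 u2 (k + 1 + 2) = N (k + 2) * rec3 u0 u1 u2 (k + 2)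
      - yy (k + 1) * rec3 u0 u1 u2 (k + 1) + rec3 u0 u1 u2 k := rfl
    rw [hrec]
    push_cast
    rw [yyR]
    have e3 : P (k + 3) = P (k + 2) * N (k + 2) := P_succ (by omega)
    have e2 : P (k + 2) = P (k + 1) * N (k + 1) := P_succ (by omega)
    have hN1 := N_geR (k + 1)
    have hN2 := N_geR (k + 2)
    have hN12 : (N (k + 1) : ℝ) ≤ N (k + 2) := N_monoR (by omega)
    have hP0 := P_pos k
    have hP1 := P_pos (k + 1)
    have hP2 := P_pos (k + 2)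
    have hPk : P k ≤ P (k + 3) := P_mono (by omega)
    have h2k : (0 : ℝ) < 2 ^ k := by positivity
    have b1 : |(N (k + 2) : ℝ) * rec3 u0 u1 u2 (k + 2)| ≤ 4 * 2 ^ k * P (k + 3) := by
      rw [abs_mul, abs_of_pos (by linarith : (0 : ℝ) < N (k + 2)), e3]
      have := mul_le_mul_of_nonneg_left i2 (by linarith : (0 : ℝ) ≤ N (k + 2))
      rw [pow_add] at this
      nlinarith
    have b2 : |(N (k + 1) : ℝ) ^ 2 / 8 * rec3 u0 u1 u2 (k + 1)| ≤ 2 ^ k * P (k + 3) := by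
      rw [abs_mul, abs_of_pos (by positivity : (0 : ℝ) < (N (k + 1) : ℝ) ^ 2 / 8), e3, e2]
      have h5 : (N (k + 1) : ℝ) ^ 2 / 8 * |(rec3 u0 u1 u2 (k + 1) : ℝ)| ≤
          (N (k + 1) : ℝ) ^ 2 / 8 * (2 ^ (k + 1) * P (k + 1)) :=
        mul_le_mul_of_nonneg_left i1 (by positivity)
      refine h5.trans ?_
      rw [pow_succ]
      have h6 : (N (k + 1) : ℝ) ^ 2 ≤ (N (k + 1) : ℝ) * N (k + 2) := by nlinarith
      have h7 : 0 < (2 : ℝ) ^ k * P (k + 1) := by positivity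
      calc (N (k + 1) : ℝ) ^ 2 / 8 * (2 ^ k * 2 * P (k + 1))
          = (N (k + 1) : ℝ) ^ 2 * ((2 ^ k * P (k + 1)) / 4) := by ring
        _ ≤ ((N (k + 1) : ℝ) * N (k + 2)) * ((2 ^ k * P (k + 1)) / 4) :=
            mul_le_mul_of_nonneg_right h6 (by positivity)
        _ ≤ ((N (k + 1) : ℝ) * N (k + 2)) * (2 ^ k * P (k + 1)) :=
            mul_le_mul_of_nonneg_left (by linarith) (by positivity)
        _ = 2 ^ k * (P (k + 1) * N (k + 1) * N (k + 2)) := by ring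
    have b3 : |(rec3 u0 u1 u2 k : ℝ)| ≤ 2 ^ k * P (k + 3) :=
      i0.trans (mul_le_mul_of_nonneg_left hPk h2k.le)
    calc |(N (k + 2) : ℝ) * rec3 u0 u1 u2 (k + 2) - (N (k + 1) : ℝ) ^ 2 / 8 * rec3 u0 u1 u2 (k + 1)
          + rec3 u0 u1 u2 k|
        ≤ |(N (k + 2) : ℝ) * rec3 u0 u1 u2 (k + 2)|
          + |(N (k + 1) : ℝ) ^ 2 / 8 * rec3 u0 u1 u2 (k + 1)| + |(rec3 u0 u1 u2 k : ℝ)| := by
          refine (abs_add_le _ _).trans ?_
          gcongr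
          exact abs_sub _ _
      _ ≤ 4 * 2 ^ k * P (k + 3) + 2 ^ k * P (k + 3) + 2 ^ k * P (k + 3) := by linarith
      _ ≤ 2 ^ (k + 1 + 2) * P (k + 1 + 2) := by
          rw [show k + 1 + 2 = k + 3 from rfl, pow_add]
          have : 0 < 2 ^ k * P (k + 3) := mul_pos h2k (P_pos _)
          nlinarith

lemma sa_bound (k : ℕ) : |(sa k : ℝ)| ≤ 2 ^ k * P k :=
  (s_bound_aux 0 1 0 k (by norm_num) (by norm_num) (by norm_num)).1
lemma sb_bound (k : ℕ) : |(sb k : ℝ)| ≤ 2 ^ k * P k :=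
  (s_bound_aux 0 0 1 k (by norm_num) (by norm_num) (by norm_num)).1

lemma Q_lower {k : ℕ} (hk : 1 ≤ k) : P k ^ 2 / 16 ^ k ≤ Q k := by
  induction k, hk using Nat.le_induction with
  | base => rw [P_one, Q_one]; norm_num
  | succ k hk ih =>
    refine le_trans ?_ (Q_succ_ge hk)
    rw [P_succ hk, div_le_iff₀ (by positivity), pow_succ (16 : ℝ) k]
    rw [div_le_iff₀ (by positivity)] at ih
    have := mul_le_mul_of_nonneg_left ih (sq_nonneg (N k : ℝ))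
    nlinarith

end Pool.Agent.R239.Besi
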